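import Pool.Agent.Y315.SC.Ent

/-!
The entropy bound.
-/

set_option autoImplicit false

open MeasureTheory Finset Metric Filter
open scoped ENNReal Topology

namespace Pool.Agent.Y315.SC

open Pool.Agent.W764.FB (T hh)
open Pool.Agent.H706R2.Ren (mp_pow)

lemma entropy_W {Q : ℕ} (hQ1 : 1 ≤ Q) (hQ : Q ≡ 1 [MOD 2]) {μ : Measure T}
    [IsProbabilityMeasure μ] (hi2 : MeasurePreserving (fun x : T => 2 • x) μ μ) {m : ℤ}
    (hm : ¬ (2 : ℤ) ∣ m) (n : ℕ) (a : ℕ → ℂ) (t : ℝ) (N : ℕ)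
    (hδ : 2 * Real.pi * |(m : ℝ)| * ((Q : ℝ) ^ n * ∑ i ∈ range n, ‖a i‖) * (1 / 2 ^ (N + 1)) <
      2 * (1 - t)) :
    H μ (N + 1) ≤ H μ N +
      Real.binEntropy (min (μ.real {x | t < ‖W Q m n a x - 1‖}) 2⁻¹) := by
  have key := entropy_step hi2 N {x | ‖W Q m n a x - 1‖ ≤ t} ?_
  · have e : {x : T | ‖W Q m n a x - 1‖ ≤ t}ᶜ = {x | t < ‖W Q m n a x - 1‖} := by
      ext x; simp
    rwa [e] at key
  · intro j hj
    by_contra hcon
    push Not at hcon
    obtain ⟨⟨z, hz1, hz2⟩, y, hy1, hy2⟩ := hcon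
    have h1 := opp_arc hj hy1 hz1
    have hsin : Real.sin (Real.pi / (2 : ℕ)) = 1 := by
      push_cast
      exact Real.sin_pi_div_two
    refine no_flip Nat.prime_two hQ1 hQ m (by exact_mod_cast hm) n a t (1 / 2 ^ (N + 1)) ?_
      (j := 1) le_rfl (by norm_num) (y := y) (z := z) hy2 hz2 h1
    rw [hsin]
    exact hδ

lemma H_succ_le {μ : Measure T} [IsProbabilityMeasure μ]
    (hi2 : MeasurePreserving (fun x : T => 2 • x) μ μ) (N : ℕ) :
    H μ (N + 1) ≤ H μ N + Real.log 2 := by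
  have h := entropy_step hi2 N ∅ (fun j _ => Or.inl fun x _ => Set.notMem_empty x)
  linarith [Real.binEntropy_le_log_two (p := min (μ.real (∅ : Set T)ᶜ) 2⁻¹)]

lemma H_zero {μ : Measure T} [IsProbabilityMeasure μ] : H μ 0 = 0 := by
  have : arc 0 0 = Set.univ := by
    ext x
    rw [mem_arc (by norm_num)]
    have := rep_mem x
    simpa using this
  simp [H, this]

lemma binEntropy_min_nonneg {x : ℝ} (hx : 0 ≤ x) : 0 ≤ Real.binEntropy (min x 2⁻¹) :=
  Real.binEntropy_nonneg (le_min hx (by norm_num)) ((min_le_right _ _).trans (by norm_num))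

/-- **The entropy of the digits and the deviations of the averages.** -/
theorem entropy_main {Q r : ℕ} (hQ1 : 1 ≤ Q) (hQ : Q ≡ 1 [MOD 2]) (hr : Q < 2 ^ r) {m : ℤ}
    (hm : m ≠ 0) {c : ℂ} (hc : c ≠ 0) {t : ℝ} (ht : t < ‖c‖) :
    ∃ K : ℝ, ∀ μ : Measure T, IsProbabilityMeasure μ →
      MeasurePreserving (fun x : T => 2 • x) μ μ → ∀ N : ℕ,
        H μ N ≤ K + ∑ k ∈ range N,
          Real.binEntropy (min (μ.real {x | t < ‖Av Q m (k / r) x - c‖}) 2⁻¹) := by
  obtain ⟨v, m', hmm, hm'⟩ := exists_part Nat.prime_two hm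
  have hc0 : 0 < ‖c‖ := norm_pos_iff.2 hc
  have hpi := Real.pi_pos
  have hr1 : 1 ≤ r := by
    rcases Nat.eq_zero_or_pos r with h | h
    · rw [h, pow_zero] at hr; omega
    · exact h
  have hQR : (1 : ℝ) ≤ Q := by exact_mod_cast hQ1
  have hrR : (Q : ℝ) < (2 : ℝ) ^ r := by exact_mod_cast hr
  set θ : ℝ := Q / (2 : ℝ) ^ r with hθ
  have hθ0 : 0 < θ := by positivity
  have hθ1 : θ < 1 := by rw [hθ, div_lt_one (by positivity)]; exact hrR
  have ht1 : 0 < 2 * (1 - t / ‖c‖) := by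
    have : t / ‖c‖ < 1 := by rw [div_lt_one hc0]; exact ht
    linarith
  have hev : ∀ᶠ L : ℕ in atTop, 2 * Real.pi * |(m' : ℝ)| * ‖c‖⁻¹ * θ ^ L <
      2 * (1 - t / ‖c‖) := by
    have h1 := (tendsto_pow_atTop_nhds_zero_of_lt_one hθ0.le hθ1).const_mul
      (2 * Real.pi * |(m' : ℝ)| * ‖c‖⁻¹)
    rw [mul_zero] at h1
    exact h1.eventually (gt_mem_nhds ht1)
  obtain ⟨L0, hL0⟩ := eventually_atTop.1 hev
  set k0 : ℕ := r * (L0 + 1) with hk0
  refine ⟨k0 * Real.log 2, fun μ hμ hi2 N => ?_⟩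
  have hlog : 0 ≤ Real.log 2 := Real.log_nonneg (by norm_num)
  have hβ : ∀ L, 0 ≤ μ.real {x : T | t < ‖Av Q m L x - c‖} := fun L => measureReal_nonneg
  have key : ∀ N : ℕ, H μ N ≤ (min N k0 : ℕ) * Real.log 2 + ∑ k ∈ range N,
      Real.binEntropy (min (μ.real {x | t < ‖Av Q m (k / r) x - c‖}) 2⁻¹) := by
    intro N
    induction N with
    | zero => simp [H_zero]
    | succ N ih =>
      rw [sum_range_succ]
      rcases Nat.lt_or_ge N k0 with h | h
      · have h1 := H_succ_le hi2 N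
        have h2 := binEntropy_min_nonneg (hβ (N / r))
        have e1 : min N k0 = N := min_eq_left h.le
        have e2 : min (N + 1) k0 = N + 1 := min_eq_left h
        rw [e1] at ih
        rw [e2]
        push_cast
        linarith
      · have e1 : min N k0 = k0 := min_eq_right h
        have e2 : min (N + 1) k0 = k0 := min_eq_right (by omega)
        rw [e1] at ih
        rw [e2]
        have hL1 : L0 + 1 ≤ N / r := by
          rw [Nat.le_div_iff_mul_le (by omega), mul_comm]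
          exact h
        set L := N / r with hL
        have hLR : (0 : ℝ) < L := by exact_mod_cast (by omega : 0 < L)
        have h1 := entropy_W hQ1 hQ hi2 (m := m') (by exact_mod_cast hm') L
          (fun _ => c⁻¹ * ((L : ℕ) : ℂ)⁻¹) (t / ‖c‖) N ?_
        · have h2 : μ.real {x : T | t / ‖c‖ < ‖W Q m' L (fun _ => c⁻¹ * ((L : ℕ) : ℂ)⁻¹) x - 1‖} =
              μ.real {x | t < ‖Av Q m L x - c‖} := by
            have e3 : {x : T | t < ‖Av Q m L x - c‖} = (fun x : T => (2 ^ v) • x) ⁻¹'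
                {x : T | t / ‖c‖ < ‖W Q m' L (fun _ => c⁻¹ * ((L : ℕ) : ℂ)⁻¹) x - 1‖} := by
              ext x
              have e4 : W Q m' L (fun _ => c⁻¹ * ((L : ℕ) : ℂ)⁻¹) ((2 ^ v) • x) - 1 =
                  c⁻¹ * (Av Q m L x - c) := by
                have e5 : Av Q m L x = Av Q m' L ((2 ^ v) • x) := by
                  rw [hmm]
                  exact Av_part 2 Q v m' L x
                rw [e5]
                unfold W Av
                rw [mul_sub, inv_mul_cancel₀ hc, ← mul_assoc, mul_sum]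
              simp only [Set.mem_preimage, Set.mem_ofPred_eq]
              rw [e4, norm_mul, norm_inv, inv_mul_eq_div, div_lt_div_iff_of_pos_right hc0]
            rw [e3]
            refine ((mp_pow 2 μ hi2 v).measureReal_preimage
              (MeasurableSet.nullMeasurableSet ?_)).symm
            exact measurableSet_lt measurable_const
              (((continuous_W Q m' L _).sub continuous_const).norm.measurable)
          rw [h2] at h1
          linarith
        · have e3 : ∑ i ∈ range L, ‖c⁻¹ * ((L : ℕ) : ℂ)⁻¹‖ = ‖c‖⁻¹ := by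
            rw [sum_const, card_range, nsmul_eq_mul, norm_mul, norm_inv, norm_inv,
              Complex.norm_natCast]
            field_simp
          rw [e3]
          have h3 : (2 : ℝ) ^ (r * L) ≤ (2 : ℝ) ^ (N + 1) :=
            pow_le_pow_right₀ (by norm_num) ((Nat.mul_div_le N r).trans (Nat.le_succ N))
          have h4 : (Q : ℝ) ^ L * (1 / (2 : ℝ) ^ (N + 1)) ≤ θ ^ L := by
            rw [hθ, div_pow, ← pow_mul, mul_one_div]
            gcongr
          calc 2 * Real.pi * |(m' : ℝ)| * ((Q : ℝ) ^ L * ‖c‖⁻¹) * (1 / (2 : ℝ) ^ (N + 1)) =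
              2 * Real.pi * |(m' : ℝ)| * ‖c‖⁻¹ * ((Q : ℝ) ^ L * (1 / (2 : ℝ) ^ (N + 1))) := by ring
            _ ≤ 2 * Real.pi * |(m' : ℝ)| * ‖c‖⁻¹ * θ ^ L := by gcongr
            _ < _ := hL0 L (by omega)
  refine (key N).trans ?_
  have : ((min N k0 : ℕ) : ℝ) ≤ k0 := by exact_mod_cast min_le_right _ _
  gcongr

/-- an elementary bound of the binary entropy -/
lemma binEntropy_min_le {x : ℝ} (hx : 0 ≤ x) {L : ℕ} (hL : 1 ≤ L) :
    Real.binEntropy (min x 2⁻¹) ≤ x * (1 + Real.log L) + 1 / L := by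
  set y := min x 2⁻¹ with hy
  have hy0 : 0 ≤ y := le_min hx (by norm_num)
  have hy1 : y ≤ 2⁻¹ := min_le_right _ _
  have hyx : y ≤ x := min_le_left _ _
  have hLR : (1 : ℝ) ≤ L := by exact_mod_cast hL
  have hlogL : 0 ≤ Real.log L := Real.log_nonneg hLR
  have key : Real.binEntropy y ≤ y * (1 + Real.log L) + 1 / L := by
    rw [Real.binEntropy_eq_negMulLog_add_negMulLog_one_sub]
    have h1 : Real.negMulLog (1 - y) ≤ y := by
      have h2 : 0 < 1 - y := by linarith
      have h3 := Real.one_sub_inv_le_log_of_pos h2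
      unfold Real.negMulLog
      have h4 : (1 - y) * (1 - (1 - y)⁻¹) ≤ (1 - y) * Real.log (1 - y) :=
        mul_le_mul_of_nonneg_left h3 h2.le
      have h5 : (1 - y) * (1 - (1 - y)⁻¹) = -y := by field_simp; ring
      linarith
    have h2 : Real.negMulLog y ≤ y * Real.log L + 1 / L := by
      rcases hy0.eq_or_lt with h | h
      · rw [← h]; simp
      · have h3 : 0 < y * L := by positivity
        have h4 := Real.one_sub_inv_le_log_of_pos h3
        rw [Real.log_mul h.ne' (by linarith)] at h4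
        unfold Real.negMulLog
        have h5 : y * (1 - (y * L)⁻¹) ≤ y * (Real.log y + Real.log L) :=
          mul_le_mul_of_nonneg_left h4 h.le
        have h6 : y * (1 - (y * L)⁻¹) = y - 1 / L := by field_simp
        nlinarith
    linarith
  refine key.trans ?_
  gcongr

/-- sums of powers -/
lemma sum_rpow_le {θ : ℝ} (h0 : 0 < θ) (h1 : θ < 1) (N : ℕ) :
    ∑ k ∈ range N, ((k : ℝ) + 1) ^ (-θ) ≤ (N : ℝ) ^ (1 - θ) / (1 - θ) := by
  induction N with
  | zero => simp; positivity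
  | succ N ih =>
    rw [sum_range_succ]
    have hN : (0 : ℝ) < (N : ℝ) + 1 := by positivity
    have h2 := rpow_one_add_le_one_add_mul_self (s := -(1 / ((N : ℝ) + 1))) (by
      rw [neg_le_neg_iff, div_le_one hN]; linarith [Nat.cast_nonneg (α := ℝ) N]) (p := 1 - θ)
      (by linarith) (by linarith)
    have e1 : 1 + -(1 / ((N : ℝ) + 1)) = N / ((N : ℝ) + 1) := by field_simp; ring
    rw [e1, Real.div_rpow (by positivity) hN.le] at h2
    have h3 : (N : ℝ) ^ (1 - θ) ≤ ((N : ℝ) + 1) ^ (1 - θ) *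
        (1 + (1 - θ) * -(1 / ((N : ℝ) + 1))) := by
      rw [div_le_iff₀ (by positivity)] at h2
      linarith
    have e2 : ((N : ℝ) + 1) ^ (-θ) = ((N : ℝ) + 1) ^ (1 - θ) / ((N : ℝ) + 1) := by
      rw [← Real.rpow_sub_one hN.ne']
      congr 1
      ring
    rw [e2]
    push_cast
    have h4 : 0 < 1 - θ := by linarith
    rw [le_div_iff₀ h4]
    rw [le_div_iff₀ h4] at ih
    calc (∑ k ∈ range N, ((k : ℝ) + 1) ^ (-θ) + ((N : ℝ) + 1) ^ (1 - θ) / ((N : ℝ) + 1)) * (1 - θ) =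
        (∑ k ∈ range N, ((k : ℝ) + 1) ^ (-θ)) * (1 - θ) +
          ((N : ℝ) + 1) ^ (1 - θ) / ((N : ℝ) + 1) * (1 - θ) := by ring
      _ ≤ ((N : ℝ) + 1) ^ (1 - θ) * (1 + (1 - θ) * -(1 / ((N : ℝ) + 1))) +
          ((N : ℝ) + 1) ^ (1 - θ) / ((N : ℝ) + 1) * (1 - θ) := by linarith
      _ = ((N : ℝ) + 1) ^ (1 - θ) := by field_simp; ring

/-- **Polynomial rate.** -/
theorem entropy_rate {Q : ℕ} (hQ1 : 1 ≤ Q) (hQ : Q ≡ 1 [MOD 2]) {μ : Measure T}
    [IsProbabilityMeasure μ] (hi2 : MeasurePreserving (fun x : T => 2 • x) μ μ) {m : ℤ}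
    (hm : m ≠ 0) {c : ℂ} (hc : c ≠ 0) {θ C : ℝ} (h0 : 0 < θ) (h1 : θ < 1)
    (hV : ∀ L : ℕ, 1 ≤ L → ∫ x, ‖Av Q m L x - c‖ ^ 2 ∂μ ≤ C * (L : ℝ) ^ (-θ)) :
    ∃ D : ℝ, ∀ N : ℕ, 1 ≤ N → H μ N ≤ D * (N : ℝ) ^ (1 - θ) * (1 + Real.log N) := by
  obtain ⟨r, hr⟩ : ∃ r : ℕ, Q < 2 ^ r := ⟨Q, Nat.lt_two_pow_self⟩
  have hr1 : 1 ≤ r := by
    rcases Nat.eq_zero_or_pos r with h | h
    · rw [h, pow_zero] at hr; omega
    · exact h
  have hrR : (1 : ℝ) ≤ r := by exact_mod_cast hr1
  have hc0 : 0 < ‖c‖ := norm_pos_iff.2 hc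
  set t : ℝ := ‖c‖ / 2 with ht
  have ht0 : 0 < t := by positivity
  obtain ⟨K, hK⟩ := entropy_main hQ1 hQ hr hm hc (t := t) (by rw [ht]; linarith)
  have hC0 : 0 ≤ C := by
    have h2 := hV 1 le_rfl
    simp only [Nat.cast_one, Real.one_rpow, mul_one] at h2
    exact le_trans (integral_nonneg fun x => by positivity) h2
  set C1 : ℝ := C / t ^ 2 with hC1
  have hC10 : 0 ≤ C1 := by positivity
  have hcheb : ∀ L : ℕ, 1 ≤ L → μ.real {x : T | t < ‖Av Q m L x - c‖} ≤ C1 * (L : ℝ) ^ (-θ) := by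
    intro L hL
    have hcont : Continuous fun x : T => ‖Av Q m L x - c‖ ^ 2 :=
      ((continuous_Av Q m L).sub continuous_const).norm.pow 2
    have hint : Integrable (fun x : T => ‖Av Q m L x - c‖ ^ 2) μ :=
      Pool.Agent.H847R3.XpXq.integrable_of_cont hcont μ
    have h2 := mul_meas_ge_le_integral_of_nonneg (μ := μ)
      (f := fun x : T => ‖Av Q m L x - c‖ ^ 2) (Eventually.of_forall fun x => by positivity) hint
      (t ^ 2)
    have h3 : μ.real {x : T | t < ‖Av Q m L x - c‖} ≤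
        μ.real {x : T | t ^ 2 ≤ ‖Av Q m L x - c‖ ^ 2} := by
      refine measureReal_mono ?_ (measure_ne_top _ _)
      intro x hx
      have hx' : t < ‖Av Q m L x - c‖ := hx
      show t ^ 2 ≤ ‖Av Q m L x - c‖ ^ 2
      gcongr
    have h4 := h2.trans (hV L hL)
    rw [hC1, div_mul_eq_mul_div, le_div_iff₀ (by positivity)]
    calc μ.real {x : T | t < ‖Av Q m L x - c‖} * t ^ 2 ≤
        t ^ 2 * μ.real {x : T | t ^ 2 ≤ ‖Av Q m L x - c‖ ^ 2} := by
          rw [mul_comm]; gcongr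
      _ ≤ _ := h4
  set E : ℝ := (C1 + 1) * (2 * r) + Real.log 2 * (2 * r) with hE
  have hlog2 : 0 ≤ Real.log 2 := Real.log_nonneg (by norm_num)
  have hE0 : 0 ≤ E := by positivity
  refine ⟨|K| + E / (1 - θ), fun N hN => ?_⟩
  have hNR : (1 : ℝ) ≤ N := by exact_mod_cast hN
  have hlogN : 0 ≤ Real.log N := Real.log_nonneg hNR
  have hterm : ∀ k ∈ range N,
      Real.binEntropy (min (μ.real {x : T | t < ‖Av Q m (k / r) x - c‖}) 2⁻¹) ≤
        E * (1 + Real.log N) * ((k : ℝ) + 1) ^ (-θ) := by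
    intro k hk
    have hkN := mem_range.1 hk
    have hk1 : (0 : ℝ) < (k : ℝ) + 1 := by positivity
    rcases Nat.lt_or_ge k r with h | h
    · have h2 : Real.binEntropy (min (μ.real {x : T | t < ‖Av Q m (k / r) x - c‖}) 2⁻¹) ≤
        Real.log 2 := Real.binEntropy_le_log_two
      have h3 : (1 : ℝ) ≤ (2 * r) * ((k : ℝ) + 1) ^ (-θ) := by
        have h4 : ((k : ℝ) + 1) ^ (θ) ≤ 2 * r := by
          have h5 : ((k : ℝ) + 1) ^ θ ≤ ((k : ℝ) + 1) ^ (1 : ℝ) :=
            Real.rpow_le_rpow_of_exponent_le (by linarith [Nat.cast_nonneg (α := ℝ) k]) h1.le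
          rw [Real.rpow_one] at h5
          have h6 : (k : ℝ) + 1 ≤ r := by exact_mod_cast h
          linarith
        rw [Real.rpow_neg hk1.le, ← div_eq_mul_inv, one_le_div (by positivity)]
        exact h4
      calc Real.binEntropy (min (μ.real {x : T | t < ‖Av Q m (k / r) x - c‖}) 2⁻¹) ≤
          Real.log 2 * 1 := by linarith
        _ ≤ Real.log 2 * ((2 * r) * ((k : ℝ) + 1) ^ (-θ)) := by gcongr
        _ = (Real.log 2 * (2 * r)) * 1 * ((k : ℝ) + 1) ^ (-θ) := by ring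
        _ ≤ E * (1 + Real.log N) * ((k : ℝ) + 1) ^ (-θ) := by
            have h7 : Real.log 2 * (2 * r) ≤ E := by
              rw [hE]
              have : 0 ≤ (C1 + 1) * (2 * r) := by positivity
              linarith
            gcongr
            linarith
    · have hL : 1 ≤ k / r := (Nat.one_le_div_iff (by omega)).2 h
      set L := k / r with hLdef
      have hLR : (1 : ℝ) ≤ L := by exact_mod_cast hL
      have hLk : (k : ℝ) + 1 ≤ (2 * r) * L := by
        have h2 : k < r * (L + 1) := Nat.lt_mul_div_succ k (by omega)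
        have h3 : k + 1 ≤ 2 * r * L := by nlinarith
        exact_mod_cast h3
      have hLN : (L : ℝ) ≤ N := by
        have : L ≤ k := Nat.div_le_self k r
        exact_mod_cast (by omega : L ≤ N)
      have h2 := binEntropy_min_le (x := μ.real {x : T | t < ‖Av Q m L x - c‖})
        measureReal_nonneg hL
      have h3 := hcheb L hL
      have hlogL : Real.log L ≤ Real.log N := Real.log_le_log (by linarith) hLN
      have hlogL0 : 0 ≤ Real.log L := Real.log_nonneg hLR
      have h4 : (L : ℝ) ^ (-θ) ≤ (2 * r) * ((k : ℝ) + 1) ^ (-θ) := by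
        have h5 : ((k : ℝ) + 1) ^ θ ≤ (2 * r) * (L : ℝ) ^ θ := by
          calc ((k : ℝ) + 1) ^ θ ≤ ((2 * r) * L) ^ θ := Real.rpow_le_rpow hk1.le hLk h0.le
            _ = (2 * r : ℝ) ^ θ * (L : ℝ) ^ θ := Real.mul_rpow (by positivity) (by positivity)
            _ ≤ (2 * r : ℝ) ^ (1 : ℝ) * (L : ℝ) ^ θ := by
                gcongr
                · linarith
            _ = _ := by rw [Real.rpow_one]
        rw [Real.rpow_neg (by positivity), Real.rpow_neg hk1.le, ← div_eq_mul_inv,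
          inv_eq_one_div, div_le_div_iff₀ (by positivity) (by positivity)]
        linarith
      have h6 : 1 / (L : ℝ) ≤ (L : ℝ) ^ (-θ) := by
        rw [one_div, ← Real.rpow_neg_one]
        exact Real.rpow_le_rpow_of_exponent_le hLR (by linarith)
      have hLθ : 0 ≤ (L : ℝ) ^ (-θ) := by positivity
      calc Real.binEntropy (min (μ.real {x : T | t < ‖Av Q m L x - c‖}) 2⁻¹) ≤
          μ.real {x : T | t < ‖Av Q m L x - c‖} * (1 + Real.log L) + 1 / L := h2
        _ ≤ (C1 * (L : ℝ) ^ (-θ)) * (1 + Real.log N) + (L : ℝ) ^ (-θ) * (1 + Real.log N) := by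
            have h7 : (L : ℝ) ^ (-θ) * 1 ≤ (L : ℝ) ^ (-θ) * (1 + Real.log N) := by
              gcongr; linarith
            have h8 : μ.real {x : T | t < ‖Av Q m L x - c‖} * (1 + Real.log L) ≤
                (C1 * (L : ℝ) ^ (-θ)) * (1 + Real.log N) := by
              gcongr
            linarith
        _ = (C1 + 1) * (1 + Real.log N) * (L : ℝ) ^ (-θ) := by ring
        _ ≤ (C1 + 1) * (1 + Real.log N) * ((2 * r) * ((k : ℝ) + 1) ^ (-θ)) := by gcongr
        _ = ((C1 + 1) * (2 * r)) * (1 + Real.log N) * ((k : ℝ) + 1) ^ (-θ) := by ring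
        _ ≤ E * (1 + Real.log N) * ((k : ℝ) + 1) ^ (-θ) := by
            have h7 : (C1 + 1) * (2 * r) ≤ E := by
              rw [hE]
              have : 0 ≤ Real.log 2 * (2 * r) := by positivity
              linarith
            gcongr
  have h2 := hK μ inferInstance hi2 N
  have h3 := sum_le_sum hterm
  rw [← mul_sum] at h3
  have h4 := sum_rpow_le h0 h1 N
  have hθ1 : 0 < 1 - θ := by linarith
  have hNθ : 1 ≤ (N : ℝ) ^ (1 - θ) := Real.one_le_rpow hNR hθ1.le
  calc H μ N ≤ |K| + E * (1 + Real.log N) * ((N : ℝ) ^ (1 - θ) / (1 - θ)) := by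
        have h5 : E * (1 + Real.log N) * ∑ k ∈ range N, ((k : ℝ) + 1) ^ (-θ) ≤
            E * (1 + Real.log N) * ((N : ℝ) ^ (1 - θ) / (1 - θ)) := by gcongr
        linarith [le_abs_self K]
    _ ≤ |K| * (N : ℝ) ^ (1 - θ) * (1 + Real.log N) +
        E * (1 + Real.log N) * ((N : ℝ) ^ (1 - θ) / (1 - θ)) := by
        have h5 : |K| * 1 * 1 ≤ |K| * (N : ℝ) ^ (1 - θ) * (1 + Real.log N) := by
          gcongr
          linarith
        linarith
    _ = (|K| + E / (1 - θ)) * (N : ℝ) ^ (1 - θ) * (1 + Real.log N) := by ring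

end Pool.Agent.Y315.SC
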