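import Mathlib

/-!
Commuting measure preserving maps which are jointly ergodic: the zero-one law, a correlation
inequality (Alaoglu-Birkhoff) and the selection of times in the second Borel-Cantelli lemma.
-/

set_option autoImplicit false

open MeasureTheory Filter Topology Set Function
open scoped ENNReal RealInnerProductSpace

namespace Pool.Agent.Y315.SC

variable {X : Type*} [MeasurableSpace X] {μ : Measure X} {f g : X → X}

/-- joint ergodicity -/
def JE (μ : Measure X) (f g : X → X) : Prop :=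
  ∀ E, MeasurableSet E → f ⁻¹' E = E → g ⁻¹' E = E → μ E = 0 ∨ μ E = 1

/-- the zero-one law for sets which are invariant up to null sets -/
lemma zero_one (hf : MeasurePreserving f μ μ) (hg : MeasurePreserving g μ μ)
    (hfg : Function.Commute f g) (herg : JE μ f g) {E : Set X} (hE : MeasurableSet E)
    (h1 : f ⁻¹' E =ᵐ[μ] E) (h2 : g ⁻¹' E =ᵐ[μ] E) : μ E = 0 ∨ μ E = 1 := by
  set A : ℕ → ℕ → Set X := fun i j => {x | f^[i] (g^[j] x) ∈ E} with hA
  have hAm : ∀ i j, MeasurableSet (A i j) := fun i j =>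
    ((hf.iterate i).measurable.comp (hg.iterate j).measurable) hE
  set E' : Set X := ⋃ N, ⋂ i, ⋂ j, {x | N ≤ i → N ≤ j → x ∈ A i j} with hE'
  have hmem : ∀ x, x ∈ E' ↔ ∃ N, ∀ i ≥ N, ∀ j ≥ N, f^[i] (g^[j] x) ∈ E := by
    intro x
    simp only [hE', mem_iUnion, mem_iInter, mem_ofPred_eq, hA]
    constructor
    · rintro ⟨N, h⟩
      exact ⟨N, fun i hi j hj => h i j hi hj⟩
    · rintro ⟨N, h⟩
      exact ⟨N, fun i j hi hj => h i hi j hj⟩
  have hE'm : MeasurableSet E' := by
    refine MeasurableSet.iUnion fun N => MeasurableSet.iInter fun i => MeasurableSet.iInter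
      fun j => ?_
    by_cases hi : N ≤ i
    · by_cases hj : N ≤ j
      · have : {x | N ≤ i → N ≤ j → x ∈ A i j} = A i j := by ext x; simp [hi, hj]
        rw [this]; exact hAm i j
      · have : {x | N ≤ i → N ≤ j → x ∈ A i j} = univ := by ext x; simp [hj]
        rw [this]; exact MeasurableSet.univ
    · have : {x | N ≤ i → N ≤ j → x ∈ A i j} = univ := by ext x; simp [hi]
      rw [this]; exact MeasurableSet.univ
  have hae : ∀ i j, A i j =ᵐ[μ] E := by
    intro i j
    have e1 : f^[i] ⁻¹' E =ᵐ[μ] E := hf.quasiMeasurePreserving.preimage_iterate_ae_eq i h1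
    have e2 : g^[j] ⁻¹' E =ᵐ[μ] E := hg.quasiMeasurePreserving.preimage_iterate_ae_eq j h2
    have e3 : g^[j] ⁻¹' (f^[i] ⁻¹' E) =ᵐ[μ] g^[j] ⁻¹' E :=
      (hg.iterate j).quasiMeasurePreserving.preimage_ae_eq e1
    exact e3.trans e2
  have hEE : E' =ᵐ[μ] E := by
    have h3 : ∀ᵐ x ∂μ, ∀ i j, (x ∈ A i j ↔ x ∈ E) := by
      rw [ae_all_iff]
      intro i
      rw [ae_all_iff]
      intro j
      filter_upwards [hae i j] with x hx
      exact (iff_of_eq hx)
    rw [eventuallyEq_set]
    filter_upwards [h3] with x hx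
    rw [hmem]
    constructor
    · rintro ⟨N, h⟩
      exact (hx N N).1 (h N le_rfl N le_rfl)
    · intro h
      exact ⟨0, fun i _ j _ => (hx i j).2 h⟩
  have hfi : f ⁻¹' E' = E' := by
    ext x
    rw [mem_preimage, hmem, hmem]
    have e : ∀ i j, f^[i] (g^[j] (f x)) = f^[i + 1] (g^[j] x) := by
      intro i j
      rw [← (hfg.iterate_right j) x, iterate_succ_apply]
    constructor
    · rintro ⟨N, h⟩
      refine ⟨N + 1, fun i hi j hj => ?_⟩
      have := h (i - 1) (by omega) j (by omega)
      rw [e, show i - 1 + 1 = i by omega] at this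
      exact this
    · rintro ⟨N, h⟩
      refine ⟨N, fun i hi j hj => ?_⟩
      rw [e]
      exact h (i + 1) (by omega) j hj
  have hgi : g ⁻¹' E' = E' := by
    ext x
    rw [mem_preimage, hmem, hmem]
    have e : ∀ i j, f^[i] (g^[j] (g x)) = f^[i] (g^[j + 1] x) := fun i j => rfl
    constructor
    · rintro ⟨N, h⟩
      refine ⟨N + 1, fun i hi j hj => ?_⟩
      have := h i (by omega) (j - 1) (by omega)
      rw [e, show j - 1 + 1 = j by omega] at this
      exact this
    · rintro ⟨N, h⟩
      refine ⟨N, fun i hi j hj => ?_⟩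
      rw [e]
      exact h i hi (j + 1) (by omega)
  have := herg E' hE'm hfi hgi
  rwa [measure_congr hEE] at this

/-- an invariant function is constant -/
lemma const_of_inv [IsProbabilityMeasure μ] (hf : MeasurePreserving f μ μ)
    (hg : MeasurePreserving g μ μ) (hfg : Function.Commute f g) (herg : JE μ f g) {v : X → ℝ}
    (hv : Measurable v) (h1 : v ∘ f =ᵐ[μ] v) (h2 : v ∘ g =ᵐ[μ] v) :
    ∃ c, v =ᵐ[μ] Function.const X c := by
  refine exists_eventuallyEq_const_of_forall_separating MeasurableSet fun U hU => ?_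
  have hE : MeasurableSet (v ⁻¹' U) := hv hU
  have e1 : f ⁻¹' (v ⁻¹' U) =ᵐ[μ] v ⁻¹' U := by
    rw [eventuallyEq_set]
    filter_upwards [h1] with x hx
    rw [← preimage_comp, mem_preimage, mem_preimage, hx]
  have e2 : g ⁻¹' (v ⁻¹' U) =ᵐ[μ] v ⁻¹' U := by
    rw [eventuallyEq_set]
    filter_upwards [h2] with x hx
    rw [← preimage_comp, mem_preimage, mem_preimage, hx]
  rcases zero_one hf hg hfg herg hE e1 e2 with h | h
  · right
    exact measure_eq_zero_iff_ae_notMem.1 h
  · left
    have : μ (v ⁻¹' U)ᶜ = 0 := (prob_compl_eq_zero_iff hE).2 h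
    exact this

/-- **The correlation inequality.** -/
lemma exists_inter [IsProbabilityMeasure μ] (hf : MeasurePreserving f μ μ)
    (hg : MeasurePreserving g μ μ) (hfg : Function.Commute f g) (herg : JE μ f g) {B C : Set X}
    (hB : MeasurableSet B) (hC : MeasurableSet C) {δ : ℝ} (hδ : δ < μ.real B * μ.real C) :
    ∃ i j : ℕ, δ < μ.real (C ∩ {x | f^[i] (g^[j] x) ∈ B}) := by
  by_contra hcon
  push Not at hcon
  set A : ℕ → ℕ → Set X := fun i j => {x | f^[i] (g^[j] x) ∈ B} with hA
  have hAm : ∀ i j, MeasurableSet (A i j) := fun i j =>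
    ((hf.iterate i).measurable.comp (hg.iterate j).measurable) hB
  have hAf : ∀ i j, f ⁻¹' (A i j) = A (i + 1) j := by
    intro i j
    ext x
    show f^[i] (g^[j] (f x)) ∈ B ↔ f^[i + 1] (g^[j] x) ∈ B
    rw [← (hfg.iterate_right j) x, iterate_succ_apply]
  have hAg : ∀ i j, g ⁻¹' (A i j) = A i (j + 1) := fun i j => rfl
  set ind : ∀ S : Set X, MeasurableSet S → Lp ℝ 2 μ := fun S hS =>
    indicatorConstLp 2 hS (measure_ne_top _ _) (1 : ℝ) with hind
  have hcongr : ∀ (S S' : Set X) (hS : MeasurableSet S) (hS' : MeasurableSet S'), S = S' →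
      ind S hS = ind S' hS' := by
    intro S S' hS hS' h
    subst h
    rfl
  set O : Set (Lp ℝ 2 μ) := {v | ∃ i j, v = ind (A i j) (hAm i j)} with hO
  set K : Set (Lp ℝ 2 μ) := closure (convexHull ℝ O) with hK
  have hne : O.Nonempty := ⟨_, 0, 0, rfl⟩
  have hKne : K.Nonempty := (hne.mono (subset_convexHull ℝ O)).mono subset_closure
  have hKc : Convex ℝ K := (convex_convexHull ℝ O).closure
  -- the operators
  set Uf := Lp.compMeasurePreservingₗᵢ (E := ℝ) (p := 2) ℝ f hf with hUf
  set Ug := Lp.compMeasurePreservingₗᵢ (E := ℝ) (p := 2) ℝ g hg with hUg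
  have hUK : ∀ U : Lp ℝ 2 μ →ₗᵢ[ℝ] Lp ℝ 2 μ, (∀ v ∈ O, U v ∈ O) → ∀ v ∈ K, U v ∈ K := by
    intro U hU v hv
    have h1 : U '' K ⊆ closure (U '' (convexHull ℝ O)) := image_closure_subset_closure_image
      U.continuous
    have h2 : U '' (convexHull ℝ O) ⊆ convexHull ℝ O := by
      have e : U '' (convexHull ℝ O) = convexHull ℝ (U '' O) :=
        (U.toLinearMap.image_convexHull O)
      rw [e]
      refine convexHull_mono ?_
      rintro _ ⟨w, hw, rfl⟩
      exact hU w hw
    exact closure_mono h2 (h1 ⟨v, hv, rfl⟩)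
  have hUfO : ∀ v ∈ O, Uf v ∈ O := by
    rintro v ⟨i, j, rfl⟩
    refine ⟨i + 1, j, ?_⟩
    have e : Uf (ind (A i j) (hAm i j)) = ind (f ⁻¹' (A i j)) ((hAm i j).preimage hf.measurable) :=
      rfl
    rw [e]
    exact hcongr _ _ _ _ (hAf i j)
  have hUgO : ∀ v ∈ O, Ug v ∈ O := by
    rintro v ⟨i, j, rfl⟩
    refine ⟨i, j + 1, ?_⟩
    have e : Ug (ind (A i j) (hAm i j)) = ind (g ⁻¹' (A i j)) ((hAm i j).preimage hg.measurable) :=
      rfl
    rw [e]
    exact hcongr _ _ _ _ (hAg i j)
  -- the element of minimal norm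
  obtain ⟨v, hvK, hv⟩ := exists_norm_eq_iInf_of_complete_convex hKne isClosed_closure.isComplete
    hKc 0
  have hvi := (norm_eq_iInf_iff_real_inner_le_zero hKc hvK).1 hv
  have huniq : ∀ w ∈ K, ‖w‖ = ‖v‖ → w = v := by
    intro w hw hwn
    have h1 := hvi w hw
    rw [zero_sub, inner_neg_left, inner_sub_right, real_inner_self_eq_norm_sq] at h1
    have h2 : ‖w - v‖ ^ 2 ≤ 0 := by
      rw [@norm_sub_sq_real, hwn, real_inner_comm]
      nlinarith
    have h3 : ‖w - v‖ = 0 := by
      have := sq_nonneg ‖w - v‖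
      exact pow_eq_zero_iff (two_ne_zero) |>.1 (le_antisymm h2 this)
    exact sub_eq_zero.1 (norm_eq_zero.1 h3)
  have hvf : Uf v = v := huniq _ (hUK Uf hUfO v hvK) (Uf.norm_map v)
  have hvg : Ug v = v := huniq _ (hUK Ug hUgO v hvK) (Ug.norm_map v)
  -- it is constant
  have hae : ∀ (h : X → X) (hh : MeasurePreserving h μ μ),
      Lp.compMeasurePreservingₗᵢ (E := ℝ) (p := 2) ℝ h hh v = v → (v : X → ℝ) ∘ h =ᵐ[μ] v := by
    intro h hh heq
    have h1 := Lp.coeFn_compMeasurePreserving v hh
    have h2 : (Lp.compMeasurePreserving h hh v : Lp ℝ 2 μ) = v := heq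
    rw [h2] at h1
    exact h1.symm
  obtain ⟨c, hc⟩ := const_of_inv hf hg hfg herg (Lp.stronglyMeasurable v).measurable
    (hae f hf hvf) (hae g hg hvg)
  -- functionals
  have hcl : ∀ (w : Lp ℝ 2 μ) (a : ℝ), (∀ u ∈ O, ⟪w, u⟫ ≤ a) → ∀ u ∈ K, ⟪w, u⟫ ≤ a := by
    intro w a h u hu
    have hclosed : IsClosed {u : Lp ℝ 2 μ | ⟪w, u⟫ ≤ a} :=
      isClosed_le (continuous_const.inner continuous_id) continuous_const
    have hconv : Convex ℝ {u : Lp ℝ 2 μ | ⟪w, u⟫ ≤ a} := by
      intro x hx y hy s t hs ht hst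
      simp only [mem_ofPred_eq] at hx hy ⊢
      rw [inner_add_right, inner_smul_right, inner_smul_right]
      have : s * a + t * a = a := by rw [← add_mul, hst, one_mul]
      nlinarith [mul_le_mul_of_nonneg_left hx hs, mul_le_mul_of_nonneg_left hy ht]
    exact closure_minimal (convexHull_min h hconv) hclosed hu
  have hAB : ∀ i j, μ.real (A i j) = μ.real B := by
    intro i j
    have h1 : MeasurePreserving (fun x => f^[i] (g^[j] x)) μ μ := (hf.iterate i).comp (hg.iterate j)
    exact h1.measureReal_preimage hB.nullMeasurableSet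
  have hint : ∀ (S : Set X) (hS : MeasurableSet S), ⟪ind S hS, v⟫ = μ.real S * c := by
    intro S hS
    rw [hind]
    simp only
    rw [L2.inner_indicatorConstLp_one (𝕜 := ℝ) hS (measure_ne_top _ _) v]
    rw [setIntegral_congr_ae (g := fun _ => c) hS]
    · rw [setIntegral_const, smul_eq_mul]
    · filter_upwards [hc] with x hx _
      exact hx
  have hind2 : ∀ (S : Set X) (hS : MeasurableSet S) (i j : ℕ),
      ⟪ind S hS, ind (A i j) (hAm i j)⟫ = μ.real (S ∩ A i j) := by
    intro S hS i j
    rw [hind]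
    exact L2.real_inner_indicatorConstLp_one_indicatorConstLp_one hS (hAm i j)
      (measure_ne_top _ _) (measure_ne_top _ _)
  have hcB : -c ≤ -μ.real B := by
    have h1 := hcl (-(ind univ MeasurableSet.univ)) (-μ.real B) (by
      rintro u ⟨i, j, rfl⟩
      rw [inner_neg_left, hind2, univ_inter, hAB]) v hvK
    rw [inner_neg_left, hint, probReal_univ, one_mul] at h1
    exact h1
  have hφ := hcl (ind C hC) δ (by
    rintro u ⟨i, j, rfl⟩
    rw [hind2]
    exact hcon i j) v hvK
  rw [hint] at hφ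
  have : μ.real C * μ.real B ≤ μ.real C * c :=
    mul_le_mul_of_nonneg_left (by linarith) measureReal_nonneg
  linarith [mul_comm (μ.real B) (μ.real C)]

end Pool.Agent.Y315.SC

namespace Pool.Agent.Y315.SC

variable {X : Type*} [MeasurableSpace X] {μ : Measure X} {f g : X → X}

/-- choice of times in a block -/
lemma block [IsProbabilityMeasure μ] (hf : MeasurePreserving f μ μ)
    (hg : MeasurePreserving g μ μ) (hfg : Function.Commute f g) (herg : JE μ f g) {B : ℕ → Set X}
    (hB : ∀ k, MeasurableSet (B k)) (hs : ¬ Summable fun k => μ.real (B k)) (N : ℕ) {ε : ℝ}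
    (hε : 0 < ε) : ∃ M, N < M ∧ ∃ a b : ℕ → ℕ,
      μ.real {x | ∀ k, N ≤ k → k < M → f^[a k] (g^[b k] x) ∉ B k} ≤ ε := by
  have hBm : ∀ (k i j : ℕ), MeasurableSet {x | f^[i] (g^[j] x) ∉ B k} := fun k i j =>
    (((hf.iterate i).measurable.comp (hg.iterate j).measurable) (hB k)).compl
  have hCm : ∀ (a b : ℕ → ℕ) (M : ℕ),
      MeasurableSet {x | ∀ k, N ≤ k → k < M → f^[a k] (g^[b k] x) ∉ B k} := by
    intro a b M
    have e : {x | ∀ k, N ≤ k → k < M → f^[a k] (g^[b k] x) ∉ B k} =
        ⋂ k ∈ Finset.Ico N M, {x | f^[a k] (g^[b k] x) ∉ B k} := by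
      ext x
      simp only [mem_ofPred_eq, Finset.mem_Ico, mem_iInter]
      exact ⟨fun h k hk => h k hk.1 hk.2, fun h k h1 h2 => h k ⟨h1, h2⟩⟩
    rw [e]
    exact Finset.measurableSet_biInter _ fun k _ => hBm k _ _
  have key : ∀ n : ℕ, ∃ a b : ℕ → ℕ,
      μ.real {x | ∀ k, N ≤ k → k < N + n → f^[a k] (g^[b k] x) ∉ B k} ≤
        ∏ k ∈ Finset.range n, (1 - μ.real (B (N + k)) / 2) := by
    intro n
    induction n with
    | zero =>
      refine ⟨fun _ => 0, fun _ => 0, ?_⟩
      simp only [Finset.range_zero, Finset.prod_empty]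
      exact measureReal_le_one
    | succ n ih =>
      obtain ⟨a, b, hab⟩ := ih
      set C : Set X := {x | ∀ k, N ≤ k → k < N + n → f^[a k] (g^[b k] x) ∉ B k} with hC
      have hCme : MeasurableSet C := hCm a b _
      obtain ⟨i, j, hij⟩ : ∃ i j : ℕ, μ.real (B (N + n)) / 2 * μ.real C ≤
          μ.real (C ∩ {x | f^[i] (g^[j] x) ∈ B (N + n)}) := by
        rcases (mul_nonneg (measureReal_nonneg (μ := μ) (s := B (N + n)))
          (measureReal_nonneg (μ := μ) (s := C))).eq_or_lt with h0 | h0
        · refine ⟨0, 0, ?_⟩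
          have : μ.real (B (N + n)) / 2 * μ.real C = 0 := by
            rw [div_mul_eq_mul_div, ← h0, zero_div]
          rw [this]
          exact measureReal_nonneg
        · obtain ⟨i, j, h⟩ := exists_inter hf hg hfg herg (hB (N + n)) hCme
            (δ := μ.real (B (N + n)) / 2 * μ.real C) (by nlinarith)
          exact ⟨i, j, h.le⟩
      refine ⟨Function.update a (N + n) i, Function.update b (N + n) j, ?_⟩
      have e : {x | ∀ k, N ≤ k → k < N + (n + 1) →
          f^[Function.update a (N + n) i k] (g^[Function.update b (N + n) j k] x) ∉ B k} =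
          C \ {x | f^[i] (g^[j] x) ∈ B (N + n)} := by
        ext x
        simp only [mem_ofPred_eq, Set.mem_sdiff, hC]
        constructor
        · intro h
          refine ⟨fun k h1 h2 => ?_, ?_⟩
          · have := h k h1 (by omega)
            rwa [Function.update_of_ne (by omega), Function.update_of_ne (by omega)] at this
          · have := h (N + n) (by omega) (by omega)
            rwa [Function.update_self, Function.update_self] at this
        · rintro ⟨h, h'⟩ k h1 h2
          rcases eq_or_ne k (N + n) with h3 | h3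
          · subst h3
            rw [Function.update_self, Function.update_self]
            exact h'
          · rw [Function.update_of_ne h3, Function.update_of_ne h3]
            exact h k h1 (by omega)
      rw [e]
      have h1 := measureReal_inter_add_sdiff (μ := μ) (s := C)
        (((hf.iterate i).measurable.comp (hg.iterate j).measurable) (hB (N + n)))
      have h2 : μ.real (C ∩ {x | f^[i] (g^[j] x) ∈ B (N + n)}) +
          μ.real (C \ {x | f^[i] (g^[j] x) ∈ B (N + n)}) = μ.real C := h1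
      rw [Finset.prod_range_succ]
      have h3 : μ.real (B (N + n)) ≤ 1 := measureReal_le_one
      calc μ.real (C \ {x | f^[i] (g^[j] x) ∈ B (N + n)}) ≤
          μ.real C * (1 - μ.real (B (N + n)) / 2) := by nlinarith
        _ ≤ _ := by
            refine mul_le_mul_of_nonneg_right hab ?_
            linarith
  have hdiv : Tendsto (fun n => ∑ k ∈ Finset.range n, μ.real (B (N + k))) atTop atTop := by
    have h1 : ¬ Summable fun k => μ.real (B (N + k)) := by
      intro h
      apply hs
      have h' : Summable fun k => μ.real (B (k + N)) := by simpa [add_comm] using h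
      exact (summable_nat_add_iff (f := fun k => μ.real (B k)) N).1 h'
    exact (not_summable_iff_tendsto_nat_atTop_of_nonneg (fun k => measureReal_nonneg)).1 h1
  obtain ⟨n, hn1, hn⟩ : ∃ n, 1 ≤ n ∧ ∏ k ∈ Finset.range n, (1 - μ.real (B (N + k)) / 2) ≤ ε := by
    have h1 := hdiv.eventually_ge_atTop (2 * (-Real.log ε))
    obtain ⟨n, hn, hn1⟩ := (h1.and (eventually_ge_atTop 1)).exists
    refine ⟨n, hn1, ?_⟩
    calc ∏ k ∈ Finset.range n, (1 - μ.real (B (N + k)) / 2) ≤
        ∏ k ∈ Finset.range n, Real.exp (-(μ.real (B (N + k)) / 2)) := by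
          refine Finset.prod_le_prod (fun k _ => ?_) fun k _ => ?_
          · have : μ.real (B (N + k)) ≤ 1 := measureReal_le_one
            linarith
          · have := Real.add_one_le_exp (-(μ.real (B (N + k)) / 2))
            linarith
      _ = Real.exp (-(∑ k ∈ Finset.range n, μ.real (B (N + k))) / 2) := by
          rw [← Real.exp_sum, Finset.sum_neg_distrib, ← Finset.sum_div, neg_div]
      _ ≤ Real.exp (Real.log ε) := Real.exp_le_exp.2 (by linarith)
      _ = ε := Real.exp_log hε
  obtain ⟨a, b, hab⟩ := key n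
  exact ⟨N + n, by omega, a, b, hab.trans hn⟩

/-- **Selection of times.** -/
theorem select [IsProbabilityMeasure μ] (hf : MeasurePreserving f μ μ)
    (hg : MeasurePreserving g μ μ) (hfg : Function.Commute f g) (herg : JE μ f g) {B : ℕ → Set X}
    (hB : ∀ k, MeasurableSet (B k)) (hs : ¬ Summable fun k => μ.real (B k)) :
    ∃ a b : ℕ → ℕ, ∀ᵐ x ∂μ, ∃ᶠ k in atTop, f^[a k] (g^[b k] x) ∈ B k := by
  choose M hM a b hab using fun (N r : ℕ) =>
    block hf hg hfg herg hB hs N (ε := (1 / 2 : ℝ) ^ r) (by positivity)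
  set S : ℕ → ℕ := fun r => Nat.rec 0 (fun r N => M N r) r with hS
  have hS1 : ∀ r, S (r + 1) = M (S r) r := fun r => rfl
  have hmono : StrictMono S := strictMono_nat_of_lt_succ fun r => by
    rw [hS1]; exact hM _ _
  have hSge : ∀ r, r ≤ S r := hmono.id_le
  set R : ℕ → ℕ := fun k => Nat.findGreatest (fun r => S r ≤ k) k with hR
  have hRk : ∀ r k, S r ≤ k → k < S (r + 1) → R k = r := by
    intro r k h1 h2
    apply le_antisymm
    · have h3 : S (R k) ≤ k := by
        have := Nat.findGreatest_spec (P := fun r => S r ≤ k) (m := r) (n := k)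
          ((hSge r).trans h1) h1
        exact this
      by_contra hlt
      have h5 : r + 1 ≤ R k := by omega
      have h6 : S (r + 1) ≤ S (R k) := hmono.monotone h5
      omega
    · exact Nat.le_findGreatest ((hSge r).trans h1) h1
  refine ⟨fun k => a (S (R k)) (R k) k, fun k => b (S (R k)) (R k) k, ?_⟩
  have hBC : ∀ᵐ x ∂μ, ∀ᶠ r in atTop, x ∉ {x | ∀ k, S r ≤ k → k < S (r + 1) →
      f^[a (S r) r k] (g^[b (S r) r k] x) ∉ B k} := by
    refine ae_eventually_notMem ?_
    refine ne_top_of_le_ne_top (b := ∑' r : ℕ, ENNReal.ofReal ((1 / 2 : ℝ) ^ r)) ?_ ?_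
    · rw [← ENNReal.ofReal_tsum_of_nonneg (fun r => by positivity)
        (summable_geometric_of_lt_one (by norm_num) (by norm_num))]
      exact ENNReal.ofReal_ne_top
    · refine ENNReal.tsum_le_tsum fun r => ?_
      rw [← ENNReal.toReal_le_toReal (measure_ne_top _ _) ENNReal.ofReal_ne_top,
        ENNReal.toReal_ofReal (by positivity)]
      have := hab (S r) r
      rw [← hS1] at this
      exact this
  filter_upwards [hBC] with x hx
  rw [frequently_atTop]
  intro k0
  obtain ⟨r, hr1, hr2⟩ := (hx.and (eventually_ge_atTop k0)).exists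
  simp only [not_forall, not_not] at hr1
  obtain ⟨k, hk1, hk2, hk3⟩ := hr1
  refine ⟨k, hr2.trans ((hSge r).trans hk1), ?_⟩
  rw [hRk r k hk1 hk2]
  exact hk3

end Pool.Agent.Y315.SC
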