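import Pool.Agent.Y315.SC.Flip
import Pool.Agent.Y315.SC.Sel
import Pool.Agent.W764.FB.Comp

/-!
All nonzero frequencies; moving averages.
-/

set_option autoImplicit false

open MeasureTheory Finset Metric Filter
open scoped ENNReal Topology

namespace Pool.Agent.Y315.SC

open Pool.Agent.W764.FB (T hh close_hh chain2 fourier_smul fc eq_volume cc_vol CC es)
open Pool.Agent.H706R2.Ren (mp_pow)

/-- the `p`-part of the frequency -/
lemma exists_part {p : ℕ} (hp : p.Prime) {m : ℤ} (hm : m ≠ 0) :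
    ∃ (v : ℕ) (m' : ℤ), m = m' * (p : ℤ) ^ v ∧ ¬ (p : ℤ) ∣ m' := by
  have hp' : Prime (p : ℤ) := Nat.prime_iff_prime_int.1 hp
  have hfin : FiniteMultiplicity (p : ℤ) m := by
    refine FiniteMultiplicity.of_not_isUnit hp'.not_isUnit hm
  obtain ⟨c, hc1, hc2⟩ := hfin.exists_eq_pow_mul_and_not_dvd
  exact ⟨multiplicity (p : ℤ) m, c, by rw [mul_comm]; exact hc1, hc2⟩

lemma fourier_part (p v : ℕ) (m' : ℤ) (y : T) :
    fourier (m' * (p : ℤ) ^ v) y = fourier m' ((p ^ v) • y) := by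
  rw [fourier_smul]
  push_cast
  rfl

lemma W_part (p Q v : ℕ) (m' : ℤ) (n : ℕ) (a : ℕ → ℂ) (x : T) :
    W Q (m' * (p : ℤ) ^ v) n a x = W Q m' n a ((p ^ v) • x) := by
  unfold W
  refine sum_congr rfl fun i _ => ?_
  rw [fourier_part, smul_comm]

lemma Av_part (p Q v : ℕ) (m' : ℤ) (L : ℕ) (x : T) :
    Av Q (m' * (p : ℤ) ^ v) L x = Av Q m' L ((p ^ v) • x) := by
  unfold Av
  congr 1
  refine sum_congr rfl fun i _ => ?_
  rw [fourier_part, smul_comm]

/-- **One character, prediction form, all frequencies.** -/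
theorem main' {p Q : ℕ} (hp : p.Prime) (hQ1 : 1 ≤ Q) (hQ : Q ≡ 1 [MOD p]) (μ : Measure T)
    [IsProbabilityMeasure μ] (hna : ∀ x, μ {x} = 0)
    (hip : MeasurePreserving (fun x : T => p • x) μ μ) {m : ℤ} (hm : m ≠ 0)
    (n : ℕ → ℕ) (a : ℕ → ℕ → ℂ)
    (ha : Tendsto (fun k : ℕ => (Q : ℝ) ^ (n k) * (∑ i ∈ range (n k), ‖a k i‖) / (p : ℝ) ^ k)
      atTop (𝓝 0)) {t : ℝ} (ht : t < Real.sin (Real.pi / p)) :
    ¬ Summable fun k : ℕ => μ.real {x | t < ‖W Q m (n k) (a k) x - 1‖} := by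
  obtain ⟨v, m', rfl, hm'⟩ := exists_part hp hm
  have key := main hp hQ1 hQ μ hna hip m' hm' n a (fun _ => t) ?_
  · intro h
    apply key
    refine h.congr fun k => ?_
    have e : {x : T | t < ‖W Q (m' * (p : ℤ) ^ v) (n k) (a k) x - 1‖} =
        (fun x : T => (p ^ v) • x) ⁻¹' {x | t < ‖W Q m' (n k) (a k) x - 1‖} := by
      ext x
      simp only [Set.mem_preimage, Set.mem_ofPred_eq, W_part]
    rw [e]
    refine (mp_pow p μ hip v).measureReal_preimage (MeasurableSet.nullMeasurableSet ?_)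
    exact measurableSet_lt measurable_const
      (((continuous_W Q m' (n k) (a k)).sub continuous_const).norm.measurable)
  · have h1 := ha.const_mul (2 * Real.pi * |(m' : ℝ)|)
    rw [mul_zero] at h1
    have h2 := h1.eventually (gt_mem_nhds (show 0 < 2 * (Real.sin (Real.pi / p) - t) by linarith))
    filter_upwards [h2] with k hk
    refine lt_of_eq_of_lt ?_ hk
    ring

/-- **One character, averages, all frequencies.** -/
theorem averages' {p Q : ℕ} (hp : p.Prime) (hQ1 : 2 ≤ Q) (hQ : Q ≡ 1 [MOD p]) (μ : Measure T)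
    [IsProbabilityMeasure μ] (hna : ∀ x, μ {x} = 0)
    (hip : MeasurePreserving (fun x : T => p • x) μ μ) {m : ℤ} (hm : m ≠ 0)
    {c : ℂ} (hc : c ≠ 0) :
    ∃ ε : ℕ → ℝ, (∀ L, 0 < ε L) ∧ Tendsto ε atTop (𝓝 0) ∧
    ¬ Summable fun L : ℕ => μ.real {x | Real.sin (Real.pi / p) * ‖c‖ - ε L < ‖Av Q m L x - c‖} := by
  obtain ⟨v, m', rfl, hm'⟩ := exists_part hp hm
  obtain ⟨ε, h1, h2, h3⟩ := averages hp hQ1 hQ μ hna hip m' hm' hc
  refine ⟨ε, h1, h2, fun h => h3 (h.congr fun L => ?_)⟩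
  have e : {x : T | Real.sin (Real.pi / p) * ‖c‖ - ε L < ‖Av Q (m' * (p : ℤ) ^ v) L x - c‖} =
      (fun x : T => (p ^ v) • x) ⁻¹'
        {x | Real.sin (Real.pi / p) * ‖c‖ - ε L < ‖Av Q m' L x - c‖} := by
    ext x
    simp only [Set.mem_preimage, Set.mem_ofPred_eq, Av_part]
  rw [e]
  refine (mp_pow p μ hip v).measureReal_preimage (MeasurableSet.nullMeasurableSet ?_)
  exact measurableSet_lt measurable_const
    (((continuous_Av Q m' L).sub continuous_const).norm.measurable)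

/-- the averages with a fixed threshold -/
theorem averages_fixed {p Q : ℕ} (hp : p.Prime) (hQ1 : 2 ≤ Q) (hQ : Q ≡ 1 [MOD p]) (μ : Measure T)
    [IsProbabilityMeasure μ] (hna : ∀ x, μ {x} = 0)
    (hip : MeasurePreserving (fun x : T => p • x) μ μ) {m : ℤ} (hm : m ≠ 0)
    {c : ℂ} (hc : c ≠ 0) {t : ℝ} (ht : t < Real.sin (Real.pi / p) * ‖c‖) :
    ¬ Summable fun L : ℕ => μ.real {x | t < ‖Av Q m L x - c‖} := by
  obtain ⟨ε, h1, h2, h3⟩ := averages' hp hQ1 hQ μ hna hip hm hc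
  intro h
  apply h3
  refine Summable.of_norm_bounded_eventually_nat h ?_
  have h4 := h2.eventually (gt_mem_nhds (show 0 < Real.sin (Real.pi / p) * ‖c‖ - t by linarith))
  filter_upwards [h4] with L hL
  rw [Real.norm_of_nonneg measureReal_nonneg]
  refine measureReal_mono ?_ (measure_ne_top _ _)
  intro x hx
  have hx' : Real.sin (Real.pi / p) * ‖c‖ - ε L < ‖Av Q m L x - c‖ := hx
  show t < ‖Av Q m L x - c‖
  linarith

lemma iterate_smul (p n : ℕ) (x : T) : (fun x : T => p • x)^[n] x = (p ^ n) • x := by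
  induction n with
  | zero => simp
  | succ n ih =>
    rw [Function.iterate_succ_apply', ih, pow_succ', mul_smul]

/-- **Moving averages diverge.** -/
theorem moving {p q d : ℕ} (hp : p.Prime) (hQ1 : 2 ≤ q ^ d) (hQ : q ^ d ≡ 1 [MOD p])
    (μ : Measure T) [IsProbabilityMeasure μ] (hna : ∀ x, μ {x} = 0)
    (hip : MeasurePreserving (fun x : T => p • x) μ μ)
    (hiq : MeasurePreserving (fun x : T => q • x) μ μ)
    (herg : ∀ E : Set T, MeasurableSet E → (fun x : T => p • x) ⁻¹' E = E →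
      (fun x : T => q • x) ⁻¹' E = E → μ E = 0 ∨ μ E = 1) {m : ℤ} (hm : m ≠ 0)
    {c : ℂ} (hc : c ≠ 0) :
    ∃ a b : ℕ → ℕ, ∀ᵐ x ∂μ, ∀ t : ℝ, t < Real.sin (Real.pi / p) * ‖c‖ → ∃ᶠ L in atTop,
      t < ‖Av (q ^ d) m L ((p ^ a L * q ^ b L) • x) - c‖ := by
  obtain ⟨ε, h1, h2, h3⟩ := averages' hp hQ1 hQ μ hna hip hm hc
  obtain ⟨a, b, hab⟩ := select (f := fun x : T => p • x) (g := fun x : T => q • x) hip hiq
    (fun x => smul_comm p q x) herg
    (B := fun L => {x | Real.sin (Real.pi / p) * ‖c‖ - ε L < ‖Av (q ^ d) m L x - c‖})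
    (fun L => measurableSet_lt measurable_const
      (((continuous_Av (q ^ d) m L).sub continuous_const).norm.measurable)) h3
  refine ⟨a, b, ?_⟩
  filter_upwards [hab] with x hx t ht
  have h4 := h2.eventually (gt_mem_nhds (show 0 < Real.sin (Real.pi / p) * ‖c‖ - t by linarith))
  refine (hx.and_eventually h4).mono ?_
  rintro L ⟨h5, h6⟩
  have h5' : Real.sin (Real.pi / p) * ‖c‖ - ε L < ‖Av (q ^ d) m L
    ((fun x : T => p • x)^[a L] ((fun x : T => q • x)^[b L] x)) - c‖ := h5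
  rw [iterate_smul, iterate_smul, ← mul_smul] at h5'
  linarith

/-- **Moving averages converge for Lebesgue measure.** -/
theorem moving_vol {Q : ℕ} (hQ : 2 ≤ Q) (m : ℤ) (N : ℕ → ℕ) (hN : ∀ L, N L ≠ 0) :
    ∀ᵐ x ∂(volume : Measure T), Tendsto (fun L : ℕ => Av Q m L ((N L) • x)) atTop
      (𝓝 (fc (volume : Measure T) m)) := by
  have hcc := cc_vol hQ m
  have hpres : ∀ L, MeasurePreserving (fun x : T => (N L) • x) (volume : Measure T) volume :=
    fun L => by
      have h := Pool.Agent.H847R3.XpXq.mp_vol (a := (N L : ℤ)) (by exact_mod_cast hN L)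
      simpa only [natCast_zsmul] using h
  have h1 : ∀ᵐ x ∂(volume : Measure T), ∀ j : ℕ, ∀ᶠ L in atTop,
      ¬ (1 / ((j : ℝ) + 1) < ‖Av Q m L ((N L) • x) - fc (volume : Measure T) m‖) := by
    rw [ae_all_iff]
    intro j
    have h2 := hcc (1 / ((j : ℝ) + 1)) (by positivity)
    refine ae_eventually_notMem (s := fun L => {x : T | 1 / ((j : ℝ) + 1) <
      ‖Av Q m L ((N L) • x) - fc (volume : Measure T) m‖}) ?_
    have e : ∀ L, (volume : Measure T) {x : T | 1 / ((j : ℝ) + 1) <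
        ‖Av Q m L ((N L) • x) - fc (volume : Measure T) m‖} = ENNReal.ofReal
          ((volume : Measure T).real {x | 1 / ((j : ℝ) + 1) <
            ‖((L : ℂ))⁻¹ * es Q m L x - fc (volume : Measure T) m‖}) := by
      intro L
      rw [ofReal_measureReal]
      refine (hpres L).measure_preimage (s := {x | 1 / ((j : ℝ) + 1) <
            ‖((L : ℂ))⁻¹ * es Q m L x - fc (volume : Measure T) m‖})
            (MeasurableSet.nullMeasurableSet ?_)
      exact measurableSet_lt measurable_const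
        (((continuous_Av Q m L).sub continuous_const).norm.measurable)
    simp_rw [e]
    rw [← ENNReal.ofReal_tsum_of_nonneg (fun L => measureReal_nonneg) h2]
    exact ENNReal.ofReal_ne_top
  filter_upwards [h1] with x hx
  rw [Metric.tendsto_atTop]
  intro ε hε
  obtain ⟨j, hj⟩ := exists_nat_one_div_lt hε
  obtain ⟨L0, hL0⟩ := eventually_atTop.1 (hx j)
  refine ⟨L0, fun L hL => ?_⟩
  rw [dist_eq_norm]
  exact (not_lt.1 (hL0 L hL)).trans_lt hj

/-- **No integrable transfer function.** -/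
theorem coboundary {p Q : ℕ} (hp : p.Prime) (hQ1 : 2 ≤ Q) (hQ : Q ≡ 1 [MOD p]) (μ : Measure T)
    [IsProbabilityMeasure μ] (hna : ∀ x, μ {x} = 0)
    (hip : MeasurePreserving (fun x : T => p • x) μ μ)
    (hiQ : MeasurePreserving (fun x : T => Q • x) μ μ) {m : ℤ} (hm : m ≠ 0)
    {c : ℂ} (hc : c ≠ 0) (g : T → ℂ) (hg : Integrable g μ) :
    ¬ ∀ᵐ x ∂μ, fourier m x - c = g x - g (Q • x) := by
  intro hcob
  have hpR : (1 : ℝ) < p := by exact_mod_cast hp.one_lt
  have hc0 : 0 < ‖c‖ := norm_pos_iff.2 hc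
  have hs0 : 0 < Real.sin (Real.pi / p) := by
    refine Real.sin_pos_of_pos_of_lt_pi (by positivity) ?_
    rw [div_lt_iff₀ (by linarith)]
    nlinarith [Real.pi_pos]
  set t : ℝ := Real.sin (Real.pi / p) * ‖c‖ / 2 with ht
  have ht0 : 0 < t := by positivity
  refine averages_fixed hp hQ1 hQ μ hna hip hm hc (t := t) (by rw [ht]; nlinarith) ?_
  -- telescoping
  have hae : ∀ᵐ x ∂μ, ∀ i : ℕ, fourier m ((Q ^ i) • x) - c =
      g ((Q ^ i) • x) - g ((Q ^ (i + 1)) • x) := by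
    rw [ae_all_iff]
    intro i
    have h := (mp_pow Q μ hiQ i).quasiMeasurePreserving.ae hcob
    filter_upwards [h] with x hx
    rw [hx, ← mul_smul, ← pow_succ']
  have htel : ∀ᵐ x ∂μ, ∀ L : ℕ, 1 ≤ L → Av Q m L x - c =
      (L : ℂ)⁻¹ * (g x - g ((Q ^ L) • x)) := by
    filter_upwards [hae] with x hx L hL
    have hLC : (L : ℂ) ≠ 0 := by exact_mod_cast (by omega : L ≠ 0)
    have h1 : ∑ i ∈ range L, (fourier m ((Q ^ i) • x) - c) = g x - g ((Q ^ L) • x) := by
      rw [sum_congr rfl fun i _ => hx i, sum_range_sub' (fun i => g ((Q ^ i) • x)), pow_zero,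
        one_smul]
    rw [← h1, sum_sub_distrib, sum_const, card_range, nsmul_eq_mul, mul_sub, ← mul_assoc,
      inv_mul_cancel₀ hLC, one_mul]
    rfl
  -- the tail of `g`
  obtain ⟨g', hg'm, hgg'⟩ := hg.aestronglyMeasurable
  have htail : Summable fun L : ℕ => μ.real {x | t * L / 2 < ‖g' x‖} := by
    let _ : MeasureSpace T := ⟨μ⟩
    have hint : Integrable (fun x => 2 / t * ‖g' x‖) μ := ((hg.congr hgg').norm).const_mul _
    have h1 := ProbabilityTheory.tsum_prob_mem_Ioi_lt_top (Ω := T) (X := fun x => 2 / t * ‖g' x‖)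
      hint (fun x => by positivity)
    have h2 : Summable fun L : ℕ => (μ {x | 2 / t * ‖g' x‖ ∈ Set.Ioi (L : ℝ)}).toReal :=
      ENNReal.summable_toReal h1.ne
    refine h2.congr fun L => ?_
    show (μ {x | 2 / t * ‖g' x‖ ∈ Set.Ioi (L : ℝ)}).toReal = μ.real {x | t * L / 2 < ‖g' x‖}
    rw [Measure.real]
    congr 2
    ext x
    simp only [Set.mem_Ioi, Set.mem_ofPred_eq]
    constructor
    · intro h
      have h3 : t * L / 2 < t / 2 * (2 / t * ‖g' x‖) := by
        have := mul_lt_mul_of_pos_left h (show 0 < t / 2 by positivity)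
        linarith
      have e : t / 2 * (2 / t * ‖g' x‖) = ‖g' x‖ := by field_simp
      linarith
    · intro h
      have h3 := mul_lt_mul_of_pos_left h (show 0 < 2 / t by positivity)
      have e : 2 / t * (t * L / 2) = L := by field_simp
      linarith
  have hgm : ∀ s : ℝ, MeasurableSet {x | s < ‖g' x‖} := fun s =>
    measurableSet_lt measurable_const hg'm.norm.measurable
  refine Summable.of_norm_bounded_eventually_nat (htail.mul_left 2) ?_
  filter_upwards [eventually_ge_atTop 1] with L hL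
  rw [Real.norm_of_nonneg measureReal_nonneg]
  have hLR : (0 : ℝ) < L := by exact_mod_cast hL
  have h1 : ∀ᵐ x ∂μ, g ((Q ^ L) • x) = g' ((Q ^ L) • x) :=
    (mp_pow Q μ hiQ L).quasiMeasurePreserving.ae hgg'
  have hle : μ {x | t < ‖Av Q m L x - c‖} ≤ μ ({x | t * L / 2 < ‖g' x‖} ∪
      (fun x : T => (Q ^ L) • x) ⁻¹' {x | t * L / 2 < ‖g' x‖}) := by
    refine measure_mono_ae ?_
    filter_upwards [htel, hgg', h1] with x hx1 hx2 hx3
    intro hx
    have hx' : t < ‖Av Q m L x - c‖ := hx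
    rw [hx1 L hL, norm_mul, norm_inv, Complex.norm_natCast, hx2, hx3, inv_mul_eq_div,
      lt_div_iff₀ hLR] at hx'
    have h4 := norm_sub_le (g' x) (g' ((Q ^ L) • x))
    by_contra hcon
    have hcon' : ¬ (t * L / 2 < ‖g' x‖) ∧ ¬ (t * L / 2 < ‖g' ((Q ^ L) • x)‖) := by
      constructor
      · intro h5; exact hcon (Or.inl h5)
      · intro h5; exact hcon (Or.inr h5)
    have h6 := not_lt.1 hcon'.1
    have h7 := not_lt.1 hcon'.2
    linarith
  have h2 : μ.real {x | t < ‖Av Q m L x - c‖} ≤ μ.real ({x | t * L / 2 < ‖g' x‖} ∪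
      (fun x : T => (Q ^ L) • x) ⁻¹' {x | t * L / 2 < ‖g' x‖}) :=
    ENNReal.toReal_mono (measure_ne_top _ _) hle
  refine h2.trans ((measureReal_union_le _ _).trans (le_of_eq ?_))
  rw [(mp_pow Q μ hiQ L).measureReal_preimage (hgm _).nullMeasurableSet]
  ring

end Pool.Agent.Y315.SC
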