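import Pool.Agent.Y315.SC.Mov

/-!
Shannon entropies of the dyadic partitions and the deviations of the averages along `Q ^ i`.
-/

set_option autoImplicit false

open MeasureTheory Finset Metric Filter
open scoped ENNReal Topology

namespace Pool.Agent.Y315.SC

open Pool.Agent.W764.FB (T hh)

/-- the arc `[j / 2 ^ N, (j + 1) / 2 ^ N)` -/
def arc (N j : ℕ) : Set T :=
  (fun x : ℝ => (x : T)) '' Set.Ico ((j : ℝ) / (2 : ℝ) ^ N) (((j : ℝ) + 1) / (2 : ℝ) ^ N)

/-- the representative in `[0, 1)` -/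
noncomputable def rep (x : T) : ℝ := (AddCircle.measurableEquivIco 1 0 x : ℝ)

lemma rep_mem (x : T) : 0 ≤ rep x ∧ rep x < 1 := by
  have h := (AddCircle.measurableEquivIco 1 0 x).2
  have h2 : rep x < 0 + 1 := h.2
  exact ⟨h.1, by linarith⟩

lemma coe_rep (x : T) : ((rep x : ℝ) : T) = x :=
  (AddCircle.measurableEquivIco 1 0).symm_apply_apply x

lemma measurable_rep : Measurable rep :=
  measurable_subtype_coe.comp (AddCircle.measurableEquivIco 1 0).measurable

lemma coe_int (n : ℤ) : ((n : ℝ) : T) = 0 := by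
  have := AddCircle.coe_period (1 : ℝ)
  rw [show ((n : ℤ) : ℝ) = n • (1 : ℝ) by simp, AddCircle.coe_zsmul, this, smul_zero]

lemma rep_coe {r : ℝ} (h0 : 0 ≤ r) (h1 : r < 1) : rep (r : T) = r := by
  have h2 := coe_rep (r : T)
  have h3 := rep_mem (r : T)
  have h4 : ((rep (r : T) - r : ℝ) : T) = 0 := by rw [AddCircle.coe_sub, h2, sub_self]
  rw [AddCircle.coe_eq_zero_iff] at h4
  obtain ⟨n, hn⟩ := h4
  have hn' : (n : ℝ) = rep (r : T) - r := by simpa using hn
  have h5 : n < 1 := by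
    have : (n : ℝ) < 1 := by linarith
    exact_mod_cast this
  have h6 : -1 < n := by
    have : (-1 : ℝ) < n := by linarith
    exact_mod_cast this
  have h7 : n = 0 := by omega
  rw [h7] at hn'
  push_cast at hn'
  linarith

lemma mem_arc {N j : ℕ} (hj : j < 2 ^ N) (x : T) :
    x ∈ arc N j ↔ (j : ℝ) / (2 : ℝ) ^ N ≤ rep x ∧ rep x < ((j : ℝ) + 1) / (2 : ℝ) ^ N := by
  have h2 : (0 : ℝ) < (2 : ℝ) ^ N := by positivity
  constructor
  · rintro ⟨r, ⟨hr1, hr2⟩, rfl⟩
    have h3 : 0 ≤ r := le_trans (by positivity) hr1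
    have h4 : r < 1 := by
      refine hr2.trans_le ?_
      rw [div_le_one h2]
      exact_mod_cast hj
    simp only [rep_coe h3 h4]
    exact ⟨hr1, hr2⟩
  · rintro ⟨h3, h4⟩
    exact ⟨rep x, ⟨h3, h4⟩, coe_rep x⟩

lemma measurableSet_arc {N j : ℕ} (hj : j < 2 ^ N) : MeasurableSet (arc N j) := by
  have e : arc N j = rep ⁻¹' (Set.Ico ((j : ℝ) / (2 : ℝ) ^ N) (((j : ℝ) + 1) / (2 : ℝ) ^ N)) := by
    ext x
    rw [mem_arc hj]
    rfl
  rw [e]
  exact measurable_rep measurableSet_Ico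

lemma two_smul_coe (r : ℝ) : (2 : ℕ) • (r : T) = ((2 * r : ℝ) : T) := by
  rw [← AddCircle.coe_nsmul, nsmul_eq_mul]
  norm_num

lemma preimage_arc {N j : ℕ} (hj : j < 2 ^ N) :
    (fun x : T => 2 • x) ⁻¹' arc N j = arc (N + 1) j ∪ arc (N + 1) (2 ^ N + j) := by
  have h2 : (0 : ℝ) < (2 : ℝ) ^ N := by positivity
  have hj1 : j < 2 ^ (N + 1) := by rw [pow_succ]; omega
  have hj2 : 2 ^ N + j < 2 ^ (N + 1) := by rw [pow_succ]; omega
  have hjR : (j : ℝ) + 1 ≤ 2 ^ N := by exact_mod_cast hj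
  ext x
  rw [Set.mem_preimage, Set.mem_union, mem_arc hj, mem_arc hj1, mem_arc hj2]
  obtain ⟨h3, h4⟩ := rep_mem x
  have e1 : (j : ℝ) / 2 ^ (N + 1) = (j / 2 ^ N) / 2 := by rw [pow_succ]; field_simp
  have e2 : ((j : ℝ) + 1) / 2 ^ (N + 1) = ((j + 1) / 2 ^ N) / 2 := by rw [pow_succ]; field_simp
  have e3 : ((2 ^ N + j : ℕ) : ℝ) / 2 ^ (N + 1) = (j / 2 ^ N) / 2 + 1 / 2 := by
    rw [pow_succ]; push_cast; field_simp; ring
  have e4 : (((2 ^ N + j : ℕ) : ℝ) + 1) / 2 ^ (N + 1) = ((j + 1) / 2 ^ N) / 2 + 1 / 2 := by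
    rw [pow_succ]; push_cast; field_simp; ring
  rw [e1, e2, e3, e4]
  have ha0 : 0 ≤ (j : ℝ) / 2 ^ N := by positivity
  have hb1 : ((j : ℝ) + 1) / 2 ^ N ≤ 1 := by rw [div_le_one h2]; exact hjR
  set a := (j : ℝ) / 2 ^ N
  set b := ((j : ℝ) + 1) / 2 ^ N
  rcases lt_or_ge (rep x) (1 / 2) with h | h
  · have e5 : rep (2 • x) = 2 * rep x := by
      conv_lhs => rw [← coe_rep x]
      rw [two_smul_coe]
      exact rep_coe (by linarith) (by linarith)
    rw [e5]
    constructor
    · rintro ⟨h5, h6⟩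
      left
      constructor <;> linarith
    · rintro (⟨h5, h6⟩ | ⟨h5, h6⟩)
      · constructor <;> linarith
      · exfalso; linarith
  · have e5 : rep (2 • x) = 2 * rep x - 1 := by
      conv_lhs => rw [← coe_rep x]
      rw [two_smul_coe]
      have e6 : ((2 * rep x : ℝ) : T) = ((2 * rep x - 1 : ℝ) : T) := by
        rw [AddCircle.coe_sub]
        have := coe_int 1
        push_cast at this
        rw [this, sub_zero]
      rw [e6]
      exact rep_coe (by linarith) (by linarith)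
    rw [e5]
    constructor
    · rintro ⟨h5, h6⟩
      right
      constructor <;> linarith
    · rintro (⟨h5, h6⟩ | ⟨h5, h6⟩)
      · exfalso; linarith
      · constructor <;> linarith

lemma disj_arc {N i j : ℕ} (hi : i < 2 ^ N) (hj : j < 2 ^ N) (hij : i ≠ j) :
    Disjoint (arc N i) (arc N j) := by
  have h2 : (0 : ℝ) < (2 : ℝ) ^ N := by positivity
  rw [Set.disjoint_left]
  intro x h3 h4
  rw [mem_arc hi] at h3
  rw [mem_arc hj] at h4
  have h5 := h3.1.trans_lt h4.2
  have h6 := h4.1.trans_lt h3.2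
  rw [div_lt_div_iff_of_pos_right h2] at h5 h6
  have h7 : i < j + 1 := by exact_mod_cast h5
  have h8 : j < i + 1 := by exact_mod_cast h6
  omega

lemma real_arc {μ : Measure T} [IsProbabilityMeasure μ]
    (hi2 : MeasurePreserving (fun x : T => 2 • x) μ μ) {N j : ℕ} (hj : j < 2 ^ N) :
    μ.real (arc N j) = μ.real (arc (N + 1) j) + μ.real (arc (N + 1) (2 ^ N + j)) := by
  have hj1 : j < 2 ^ (N + 1) := by rw [pow_succ]; omega
  have hj2 : 2 ^ N + j < 2 ^ (N + 1) := by rw [pow_succ]; omega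
  rw [← hi2.measureReal_preimage (measurableSet_arc hj).nullMeasurableSet, preimage_arc hj,
    measureReal_union (disj_arc hj1 hj2 (by have := Nat.two_pow_pos N; omega))
      (measurableSet_arc hj2)]

lemma sum_double (N : ℕ) (F : ℕ → ℝ) : ∑ i ∈ range (2 ^ (N + 1)), F i =
    ∑ j ∈ range (2 ^ N), (F j + F (2 ^ N + j)) := by
  rw [pow_succ, mul_two, sum_range_add, sum_add_distrib]

lemma sum_arc {μ : Measure T} [IsProbabilityMeasure μ]
    (hi2 : MeasurePreserving (fun x : T => 2 • x) μ μ) (N : ℕ) :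
    ∑ j ∈ range (2 ^ N), μ.real (arc N j) = 1 := by
  induction N with
  | zero =>
    have : arc 0 0 = Set.univ := by
      ext x
      rw [mem_arc (by norm_num)]
      have := rep_mem x
      simpa using this
    simp [this]
  | succ N ih =>
    rw [sum_double]
    exact (sum_congr rfl fun j hj => (real_arc hi2 (mem_range.1 hj)).symm).trans ih

/-- the Shannon entropy of the partition in `2 ^ N` arcs -/
noncomputable def H (μ : Measure T) (N : ℕ) : ℝ :=
  ∑ j ∈ range (2 ^ N), Real.negMulLog (μ.real (arc N j))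

/-- entropy of a two-element refinement -/
lemma two_pieces {a b : ℝ} (ha : 0 ≤ a) (hb : 0 ≤ b) :
    Real.negMulLog a + Real.negMulLog b - Real.negMulLog (a + b) =
      (a + b) * Real.binEntropy (min a b / (a + b)) := by
  have key : ∀ a b : ℝ, 0 ≤ a → 0 ≤ b →
      Real.negMulLog a + Real.negMulLog b - Real.negMulLog (a + b) =
      (a + b) * Real.binEntropy (a / (a + b)) := by
    intro a b ha hb
    rcases ha.eq_or_lt with h | h
    · rw [← h]; simp
    rcases hb.eq_or_lt with h' | h'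
    · rw [← h']; simp [h.ne']
    have hs : 0 < a + b := by linarith
    rw [Real.binEntropy_eq_negMulLog_add_negMulLog_one_sub]
    have e1 : 1 - a / (a + b) = b / (a + b) := by field_simp; ring
    rw [e1]
    unfold Real.negMulLog
    rw [Real.log_div h.ne' hs.ne', Real.log_div h'.ne' hs.ne']
    field_simp
    ring
  rcases le_total a b with h | h
  · rw [min_eq_left h]; exact key a b ha hb
  · rw [min_eq_right h, add_comm (Real.negMulLog a), add_comm a b]; exact key b a hb ha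

/-- **One step.** If in each pair of arcs one of the two misses the set `G`, the entropy grows by
at most the binary entropy of the measure of the complement of `G`. -/
lemma entropy_step {μ : Measure T} [IsProbabilityMeasure μ]
    (hi2 : MeasurePreserving (fun x : T => 2 • x) μ μ) (N : ℕ) (G : Set T)
    (hG : ∀ j < 2 ^ N, (∀ x ∈ arc (N + 1) j, x ∉ G) ∨ (∀ x ∈ arc (N + 1) (2 ^ N + j), x ∉ G)) :
    H μ (N + 1) ≤ H μ N + Real.binEntropy (min (μ.real Gᶜ) 2⁻¹) := by
  classical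
  set a : ℕ → ℝ := fun j => μ.real (arc (N + 1) j) with ha
  set b : ℕ → ℝ := fun j => μ.real (arc (N + 1) (2 ^ N + j)) with hb
  have ha0 : ∀ j, 0 ≤ a j := fun j => measureReal_nonneg
  have hb0 : ∀ j, 0 ≤ b j := fun j => measureReal_nonneg
  have hs : ∑ j ∈ range (2 ^ N), (a j + b j) = 1 := by
    exact (sum_congr rfl fun j hj => (real_arc hi2 (mem_range.1 hj)).symm).trans (sum_arc hi2 N)
  have h1 : H μ (N + 1) - H μ N = ∑ j ∈ range (2 ^ N),
      (a j + b j) * Real.binEntropy (min (a j) (b j) / (a j + b j)) := by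
    unfold H
    rw [sum_double, ← sum_sub_distrib]
    refine sum_congr rfl fun j hj => ?_
    rw [real_arc hi2 (mem_range.1 hj), ← two_pieces (ha0 j) (hb0 j)]
  have hmin0 : ∀ j, 0 ≤ min (a j) (b j) := fun j => le_min (ha0 j) (hb0 j)
  have h2 : ∑ j ∈ range (2 ^ N), (a j + b j) • Real.binEntropy (min (a j) (b j) / (a j + b j)) ≤
      Real.binEntropy (∑ j ∈ range (2 ^ N), (a j + b j) • (min (a j) (b j) / (a j + b j))) := by
    refine Real.strictConcave_binEntropy.concaveOn.le_map_sum (fun j _ => add_nonneg (ha0 j) (hb0 j))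
      hs fun j _ => ⟨div_nonneg (hmin0 j) (add_nonneg (ha0 j) (hb0 j)), ?_⟩
    refine div_le_one_of_le₀ ?_ (add_nonneg (ha0 j) (hb0 j))
    have := min_le_left (a j) (b j)
    linarith [hb0 j]
  have h3 : ∑ j ∈ range (2 ^ N), (a j + b j) • (min (a j) (b j) / (a j + b j)) =
      ∑ j ∈ range (2 ^ N), min (a j) (b j) := by
    refine sum_congr rfl fun j _ => ?_
    rw [smul_eq_mul]
    rcases (add_nonneg (ha0 j) (hb0 j)).eq_or_lt with h | h
    · have h4 : a j = 0 := by linarith [ha0 j, hb0 j]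
      have h5 : b j = 0 := by linarith [ha0 j, hb0 j]
      simp [h4, h5]
    · field_simp
  rw [h3] at h2
  have h4 : ∑ j ∈ range (2 ^ N), min (a j) (b j) ≤ 2⁻¹ := by
    have : ∑ j ∈ range (2 ^ N), min (a j) (b j) ≤ ∑ j ∈ range (2 ^ N), (a j + b j) / 2 := by
      refine sum_le_sum fun j _ => ?_
      have h5 := min_le_left (a j) (b j)
      have h6 := min_le_right (a j) (b j)
      linarith
    rw [← sum_div, hs] at this
    linarith
  have hpair : ∀ j ∈ range (2 ^ N), min (a j) (b j) ≤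
      μ.real ((arc (N + 1) j ∪ arc (N + 1) (2 ^ N + j)) ∩ Gᶜ) := by
    intro j hj
    rcases hG j (mem_range.1 hj) with h | h
    · refine (min_le_left _ _).trans (measureReal_mono ?_ (measure_ne_top _ _))
      exact fun x hx => ⟨Or.inl hx, h x hx⟩
    · refine (min_le_right _ _).trans (measureReal_mono ?_ (measure_ne_top _ _))
      exact fun x hx => ⟨Or.inr hx, h x hx⟩
  have h5 : ∑ j ∈ range (2 ^ N), min (a j) (b j) ≤ μ.real Gᶜ := by
    refine (sum_le_sum hpair).trans ?_
    have hdis : Set.PairwiseDisjoint (↑(range (2 ^ N))) fun j =>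
        (arc (N + 1) j ∪ arc (N + 1) (2 ^ N + j)) := by
      intro i hi j hj hij
      have hi' : i < 2 ^ N := mem_range.1 hi
      have hj' : j < 2 ^ N := mem_range.1 hj
      show Disjoint (arc (N + 1) i ∪ arc (N + 1) (2 ^ N + i))
        (arc (N + 1) j ∪ arc (N + 1) (2 ^ N + j))
      rw [← preimage_arc hi', ← preimage_arc hj']
      exact (disj_arc hi' hj' hij).preimage _
    have hm : ∀ j ∈ range (2 ^ N),
        MeasurableSet (arc (N + 1) j ∪ arc (N + 1) (2 ^ N + j)) := by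
      intro j hj
      have hj' : j < 2 ^ N := mem_range.1 hj
      rw [← preimage_arc hj']
      exact hi2.measurable (measurableSet_arc hj')
    have e : ∀ j ∈ range (2 ^ N), μ.real ((arc (N + 1) j ∪ arc (N + 1) (2 ^ N + j)) ∩ Gᶜ) =
        (μ.restrict Gᶜ).real (arc (N + 1) j ∪ arc (N + 1) (2 ^ N + j)) := by
      intro j hj
      rw [measureReal_restrict_apply (hm j hj)]
    rw [sum_congr rfl e, ← measureReal_biUnion_finset hdis hm]
    refine (measureReal_mono (Set.subset_univ _) (measure_ne_top _ _)).trans (le_of_eq ?_)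
    rw [measureReal_restrict_apply MeasurableSet.univ, Set.univ_inter]
  have h6 : Real.binEntropy (∑ j ∈ range (2 ^ N), min (a j) (b j)) ≤
      Real.binEntropy (min (μ.real Gᶜ) 2⁻¹) := by
    refine Real.binEntropy_strictMonoOn.monotoneOn ⟨sum_nonneg fun j _ => hmin0 j, h4⟩
      ⟨le_min measureReal_nonneg (by norm_num), min_le_right _ _⟩ (le_min h5 h4)
  have h7 : H μ (N + 1) - H μ N ≤ Real.binEntropy (min (μ.real Gᶜ) 2⁻¹) := by
    rw [h1]
    exact (h2.trans h6)
  linarith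

/-- opposite arcs -/
lemma opp_arc {N j : ℕ} (hj : j < 2 ^ N) {y z : T} (hy : y ∈ arc (N + 1) (2 ^ N + j))
    (hz : z ∈ arc (N + 1) j) : ‖y - z - hh 2 1 1‖ ≤ 1 / (2 : ℝ) ^ (N + 1) := by
  have hj1 : j < 2 ^ (N + 1) := by rw [pow_succ]; omega
  have hj2 : 2 ^ N + j < 2 ^ (N + 1) := by rw [pow_succ]; omega
  rw [mem_arc hj2] at hy
  rw [mem_arc hj1] at hz
  have e : y - z - hh 2 1 1 = ((rep y - rep z - 1 / 2 : ℝ) : T) := by
    rw [AddCircle.coe_sub, AddCircle.coe_sub, coe_rep, coe_rep]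
    unfold hh
    norm_num
  rw [e, UnitAddCircle.norm_eq]
  refine (round_le _ 0).trans ?_
  push_cast
  rw [sub_zero, abs_le]
  have e3 : ((2 ^ N + j : ℕ) : ℝ) / 2 ^ (N + 1) = j / 2 ^ (N + 1) + 1 / 2 := by
    rw [pow_succ]; push_cast; field_simp; ring
  have e4 : (((2 ^ N + j : ℕ) : ℝ) + 1) / 2 ^ (N + 1) = (j + 1) / 2 ^ (N + 1) + 1 / 2 := by
    rw [pow_succ]; push_cast; field_simp; ring
  rw [e3, e4] at hy
  have e5 : ((j : ℝ) + 1) / 2 ^ (N + 1) = j / 2 ^ (N + 1) + 1 / 2 ^ (N + 1) := by ring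
  rw [e5] at hy hz
  constructor <;> linarith [hy.1, hy.2, hz.1, hz.2]

end Pool.Agent.Y315.SC
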