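import Pool.Agent.W764.FB.Chain2

/-!
The flip of a character under the translations by `k / p`, and the chain argument for a single
character.
-/

set_option autoImplicit false

open MeasureTheory Finset Metric Filter
open scoped ENNReal Topology

namespace Pool.Agent.Y315.SC

open Pool.Agent.W764.FB (T hh close_hh chain2 fourier_smul)

/-- `|sin (π a / p)| ≥ sin (π / p)` for `1 ≤ a < p` -/
lemma sin_le {p a : ℕ} (ha : 1 ≤ a) (hap : a < p) :
    Real.sin (Real.pi / p) ≤ Real.sin (Real.pi * a / p) := by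
  have hp0 : (0 : ℝ) < p := by exact_mod_cast (by omega : 0 < p)
  have hpi := Real.pi_pos
  have key : ∀ b : ℕ, 1 ≤ b → 2 * b ≤ p → Real.sin (Real.pi / p) ≤ Real.sin (Real.pi * b / p) := by
    intro b hb hbp
    have hbR : (1 : ℝ) ≤ b := by exact_mod_cast hb
    have hbpR : (2 : ℝ) * b ≤ p := by exact_mod_cast hbp
    refine Real.sin_le_sin_of_le_of_le_pi_div_two ?_ ?_ ?_
    · have : 0 ≤ Real.pi / p := by positivity
      linarith
    · rw [div_le_div_iff₀ hp0 (by norm_num)]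
      nlinarith
    · gcongr
      nlinarith
  rcases Nat.lt_or_ge p (2 * a) with h | h
  · have h1 := key (p - a) (by omega) (by omega)
    refine h1.trans (le_of_eq ?_)
    rw [← Real.sin_pi_sub]
    congr 1
    have hc : ((p - a : ℕ) : ℝ) = p - a := by
      rw [Nat.cast_sub hap.le]
    rw [hc]
    field_simp
    ring
  · exact key a ha h

/-- reduction modulo `p` of the sine -/
lemma abs_sin_int {p : ℕ} (hp : 0 < p) {b : ℤ} (hb : ¬ (p : ℤ) ∣ b) :
    Real.sin (Real.pi / p) ≤ |Real.sin (Real.pi * b / p)| := by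
  have hp0 : (0 : ℝ) < p := by exact_mod_cast hp
  have hpz : (0 : ℤ) < p := by exact_mod_cast hp
  obtain ⟨r, hr⟩ : ∃ r : ℕ, (r : ℤ) = b % p := ⟨(b % p).toNat, Int.toNat_of_nonneg
    (Int.emod_nonneg _ hpz.ne')⟩
  have hr1 : r < p := by
    have := Int.emod_lt_of_pos b hpz
    omega
  have hr0 : 1 ≤ r := by
    rcases Nat.eq_zero_or_pos r with h | h
    · exfalso
      apply hb
      rw [Int.dvd_iff_emod_eq_zero, ← hr, h]
      simp
    · exact h
  have e : (b : ℝ) = p * (b / p : ℤ) + r := by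
    have h1 := Int.mul_ediv_add_emod b p
    have h2 : b = p * (b / p) + (r : ℤ) := by rw [hr]; linarith
    exact_mod_cast h2
  have e2 : Real.pi * b / p = Real.pi * r / p + (b / p : ℤ) * Real.pi := by
    rw [e]
    field_simp
    ring
  rw [e2, Real.sin_add_int_mul_pi, abs_mul, abs_zpow, abs_neg, abs_one, one_zpow, one_mul]
  exact (sin_le hr0 hr1).trans (le_abs_self _)

lemma fourier_coe (m : ℤ) (r : ℝ) :
    fourier m (r : T) = Complex.exp (Complex.I * ((2 * Real.pi * m * r : ℝ) : ℂ)) := by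
  rw [fourier_coe_apply]
  congr 1
  push_cast
  ring

/-- the flip is not small -/
lemma flip_lower {p : ℕ} (hp : p.Prime) {m : ℤ} (hm : ¬ (p : ℤ) ∣ m) {k : ℕ} (hk : 1 ≤ k)
    (hkp : k < p) : 2 * Real.sin (Real.pi / p) ≤ ‖fourier m (hh p 1 k) - (1 : ℂ)‖ := by
  have hp0 : (0 : ℝ) < p := by exact_mod_cast hp.pos
  unfold hh
  rw [fourier_coe, Complex.norm_exp_I_mul_ofReal_sub_one, Real.norm_eq_abs, abs_mul, abs_two]
  have e : 2 * Real.pi * m * ((k : ℝ) / (p : ℝ) ^ 1) / 2 = Real.pi * ((m * k : ℤ) : ℝ) / p := by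
    push_cast
    field_simp
  rw [e]
  have h1 : ¬ (p : ℤ) ∣ m * k := by
    intro h
    rcases (Nat.prime_iff_prime_int.1 hp).dvd_or_dvd h with h | h
    · exact hm h
    · have h2 : p ∣ k := by exact_mod_cast h
      exact absurd (Nat.le_of_dvd (by omega) h2) (by omega)
  have := abs_sin_int hp.pos h1
  linarith

/-- Lipschitz estimate for characters -/
lemma norm_fourier_sub_one (m : ℤ) (x : T) :
    ‖fourier m x - (1 : ℂ)‖ ≤ 2 * Real.pi * |(m : ℝ)| * ‖x‖ := by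
  obtain ⟨r, rfl⟩ : ∃ r : ℝ, (r : T) = x := QuotientAddGroup.mk_surjective x
  have h1 : ((r - round r : ℝ) : T) = (r : T) := by
    rw [AddCircle.coe_sub]
    have : ((round r : ℝ) : T) = 0 := by
      have := AddCircle.coe_period (1 : ℝ)
      rw [show ((round r : ℤ) : ℝ) = (round r) • (1 : ℝ) by simp, AddCircle.coe_zsmul, this,
        smul_zero]
    rw [this, sub_zero]
  rw [← h1, fourier_coe]
  refine Real.norm_exp_I_mul_ofReal_sub_one_le.trans (le_of_eq ?_)
  rw [h1, UnitAddCircle.norm_eq, Real.norm_eq_abs, abs_mul, abs_mul, abs_mul, abs_two,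
    abs_of_pos Real.pi_pos]

/-- the translations by `k / p` are fixed by multiplication by numbers congruent to one -/
lemma smul_hh {p Q : ℕ} (hp : 0 < p) (hQ : Q ≡ 1 [MOD p]) (k i : ℕ) :
    (Q ^ i) • hh p 1 k = hh p 1 k := by
  have hp0 : (p : ℝ) ≠ 0 := by exact_mod_cast hp.ne'
  have h1 : Q ^ i ≡ 1 [MOD p] := by simpa using hQ.pow i
  obtain ⟨c, hc⟩ := (Nat.modEq_iff_dvd.1 h1.symm)
  have e : ((Q ^ i : ℕ) : ℝ) = 1 + p * c := by
    have : ((Q ^ i : ℕ) : ℤ) = 1 + p * c := by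
      have := hc
      push_cast at this ⊢
      linarith
    exact_mod_cast this
  unfold hh
  rw [← AddCircle.coe_nsmul, nsmul_eq_mul, pow_one, e]
  have e2 : (1 + (p : ℝ) * c) * (k / p) = k / p + ((c * k : ℤ) : ℝ) := by
    push_cast
    field_simp
  rw [e2, AddCircle.coe_add]
  have : (((c * k : ℤ) : ℝ) : T) = 0 := by
    have := AddCircle.coe_period (1 : ℝ)
    rw [show (((c * k : ℤ)) : ℝ) = (c * k : ℤ) • (1 : ℝ) by simp, AddCircle.coe_zsmul, this,
      smul_zero]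
  rw [this, add_zero]

/-- a combination of the characters `e (m Q ^ i x)` -/
noncomputable def W (Q : ℕ) (m : ℤ) (n : ℕ) (a : ℕ → ℂ) (x : T) : ℂ :=
  ∑ i ∈ range n, a i * fourier m ((Q ^ i) • x)

lemma continuous_W (Q : ℕ) (m : ℤ) (n : ℕ) (a : ℕ → ℂ) : Continuous (W Q m n a) := by
  unfold W
  exact continuous_finsetSum _ fun i _ => continuous_const.mul
    ((fourier m).continuous.comp (continuous_nsmul _))

/-- **The flip.** -/
lemma flip {p Q : ℕ} (hp : 0 < p) (hQ1 : 1 ≤ Q) (hQ : Q ≡ 1 [MOD p]) (m : ℤ) (n : ℕ) (a : ℕ → ℂ)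
    (k : ℕ) (y z : T) :
    ‖W Q m n a y - fourier m (hh p 1 k) * W Q m n a z‖ ≤
      2 * Real.pi * |(m : ℝ)| * ((Q : ℝ) ^ n * ∑ i ∈ range n, ‖a i‖) * ‖y - z - hh p 1 k‖ := by
  unfold W
  rw [mul_sum, ← sum_sub_distrib]
  refine (norm_sum_le _ _).trans ?_
  rw [mul_sum, mul_sum, sum_mul]
  refine sum_le_sum fun i hi => ?_
  have hQR : (1 : ℝ) ≤ Q := by exact_mod_cast hQ1
  have e1 : (Q ^ i) • y = (Q ^ i) • (y - z - hh p 1 k) + ((Q ^ i) • z + hh p 1 k) := by
    rw [smul_sub, smul_hh hp hQ]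
    rw [smul_sub]
    abel
  have e2 : a i * fourier m ((Q ^ i) • y) - fourier m (hh p 1 k) * (a i * fourier m ((Q ^ i) • z)) =
      a i * (fourier m (hh p 1 k) * fourier m ((Q ^ i) • z)) *
        (fourier m ((Q ^ i) • (y - z - hh p 1 k)) - 1) := by
    have hadd : ∀ u v : T, fourier m (u + v) = fourier m u * fourier m v := by
      intro u v
      simp only [fourier_apply, smul_add, AddCircle.toCircle_add, Circle.coe_mul]
    rw [e1, hadd, hadd]
    ring
  rw [e2, norm_mul, norm_mul, norm_mul]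
  have hn : ∀ u : T, ‖fourier m u‖ = 1 := fun u => Circle.norm_coe _
  rw [hn, hn, mul_one, mul_one]
  have h3 := norm_fourier_sub_one m ((Q ^ i) • (y - z - hh p 1 k))
  have h4 : ‖(Q ^ i) • (y - z - hh p 1 k)‖ ≤ (Q : ℝ) ^ n * ‖y - z - hh p 1 k‖ := by
    refine norm_nsmul_le.trans ?_
    push_cast
    gcongr
    exact (mem_range.1 hi).le
  have hpi := Real.pi_pos
  calc ‖a i‖ * ‖fourier m ((Q ^ i) • (y - z - hh p 1 k)) - (1 : ℂ)‖ ≤
      ‖a i‖ * (2 * Real.pi * |(m : ℝ)| * ((Q : ℝ) ^ n * ‖y - z - hh p 1 k‖)) := by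
        gcongr
        exact h3.trans (by gcongr)
    _ = 2 * Real.pi * |(m : ℝ)| * ((Q : ℝ) ^ n * ‖a i‖) * ‖y - z - hh p 1 k‖ := by ring

/-- two points of the good set are not related by an approximate translation by `j / p` -/
lemma no_flip {p Q : ℕ} (hp : p.Prime) (hQ1 : 1 ≤ Q) (hQ : Q ≡ 1 [MOD p]) (m : ℤ)
    (hm : ¬ (p : ℤ) ∣ m) (n : ℕ) (a : ℕ → ℂ) (t δ : ℝ)
    (hδ : 2 * Real.pi * |(m : ℝ)| * ((Q : ℝ) ^ n * ∑ i ∈ range n, ‖a i‖) * δ <
      2 * (Real.sin (Real.pi / p) - t)) {j : ℕ} (hj0 : 1 ≤ j) (hjp : j < p) {y z : T}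
    (hy : ‖W Q m n a y - 1‖ ≤ t) (hz : ‖W Q m n a z - 1‖ ≤ t)
    (hj1 : ‖y - z - hh p 1 j‖ ≤ δ) : False := by
  have hpi := Real.pi_pos
  have h1 := flip_lower hp hm hj0 hjp
  have h2 := flip hp.pos hQ1 hQ m n a j y z
  have h3 : ‖W Q m n a y - fourier m (hh p 1 j) * W Q m n a z‖ <
      2 * (Real.sin (Real.pi / p) - t) := by
    refine lt_of_le_of_lt (h2.trans ?_) hδ
    gcongr
  have e : fourier m (hh p 1 j) - (1 : ℂ) = (W Q m n a y - 1) -
      (W Q m n a y - fourier m (hh p 1 j) * W Q m n a z) -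
      fourier m (hh p 1 j) * (W Q m n a z - 1) := by ring
  have h4 : ‖fourier m (hh p 1 j) - (1 : ℂ)‖ ≤ ‖W Q m n a y - 1‖ +
      ‖W Q m n a y - fourier m (hh p 1 j) * W Q m n a z‖ +
      ‖fourier m (hh p 1 j) * (W Q m n a z - 1)‖ := by
    rw [e]
    refine (norm_sub_le _ _).trans ?_
    gcongr
    exact norm_sub_le _ _
  rw [norm_mul, show ‖fourier m (hh p 1 j)‖ = 1 from Circle.norm_coe _, one_mul] at h4
  linarith

/-- **One character, prediction form.** -/
theorem main {p Q : ℕ} (hp : p.Prime) (hQ1 : 1 ≤ Q) (hQ : Q ≡ 1 [MOD p]) (μ : Measure T)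
    [IsProbabilityMeasure μ] (hna : ∀ x, μ {x} = 0)
    (hip : MeasurePreserving (fun x : T => p • x) μ μ) (m : ℤ) (hm : ¬ (p : ℤ) ∣ m)
    (n : ℕ → ℕ) (a : ℕ → ℕ → ℂ) (t : ℕ → ℝ)
    (ht : ∀ᶠ k : ℕ in atTop, 2 * Real.pi * |(m : ℝ)| *
      ((Q : ℝ) ^ (n k) * ∑ i ∈ range (n k), ‖a k i‖) * (1 / (p : ℝ) ^ k) <
        2 * (Real.sin (Real.pi / p) - t k)) :
    ¬ Summable fun k : ℕ => μ.real {x | t k < ‖W Q m (n k) (a k) x - 1‖} := by
  have hpR : (0 : ℝ) < p := by exact_mod_cast hp.pos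
  have hpi := Real.pi_pos
  set G : ℕ → Set T := fun k => {x | ‖W Q m (n k) (a k) x - 1‖ ≤ t k} with hG
  have hGc : ∀ k, (G k)ᶜ = {x | t k < ‖W Q m (n k) (a k) x - 1‖} := by
    intro k
    ext x
    simp [hG]
  have hGm : ∀ k, MeasurableSet (G k) := fun k =>
    (isClosed_le (((continuous_W Q m (n k) (a k)).sub continuous_const).norm)
      continuous_const).measurableSet
  obtain ⟨k0, hk0⟩ := eventually_atTop.1 ht
  have key := chain2 p hp.two_le μ hip hna G hGm (fun _ => 0) (fun _ _ _ => le_rfl) ?_ k0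
    (fun _ => 0) (fun K0 => ⟨K0, le_rfl, fun k hk => by simpa using hk⟩) ?_
  · intro hsum
    apply key
    refine hsum.congr fun k => ?_
    rw [hGc k]
  · have h1 : Tendsto (fun k : ℕ => (1 : ℝ) / (p : ℝ) ^ k) atTop (𝓝 0) := by
      simp_rw [one_div, ← inv_pow]
      refine tendsto_pow_atTop_nhds_zero_of_lt_one (by positivity) ?_
      exact inv_lt_one_of_one_lt₀ (by exact_mod_cast hp.one_lt)
    simpa using h1
  · intro k hk y z hy hz hyz
    simp only [pow_zero, one_smul, Nat.sub_zero, zero_add, pow_one] at hy hz hyz ⊢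
    obtain ⟨j, hjp, hj⟩ := close_hh hp.pos (y - z)
    have hj1 : ‖y - z - hh p 1 j‖ ≤ 1 / (p : ℝ) ^ k := by
      refine hj.trans ?_
      rw [div_le_iff₀ hpR]
      refine hyz.trans (le_of_eq ?_)
      ring
    rcases Nat.eq_zero_or_pos j with h0 | h0
    · have e : hh p 1 j = 0 := by
        rw [h0]; unfold hh; simp
      rwa [e, sub_zero] at hj1
    · exact (no_flip hp hQ1 hQ m hm (n k) (a k) (t k) _ (hk0 k hk) h0 hjp hy hz hj1).elim

/-- the averages -/
noncomputable def Av (Q : ℕ) (m : ℤ) (L : ℕ) (x : T) : ℂ :=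
  (L : ℂ)⁻¹ * ∑ i ∈ range L, fourier m ((Q ^ i) • x)

lemma continuous_Av (Q : ℕ) (m : ℤ) (L : ℕ) : Continuous (Av Q m L) := by
  unfold Av
  exact continuous_const.mul (continuous_finsetSum _ fun i _ =>
    (fourier m).continuous.comp (continuous_nsmul _))

/-- from the sum over the levels `k` to the sum over the lengths `k / r` -/
lemma summable_div {f : ℕ → ℝ} (r : ℕ) (hr : 1 ≤ r) (hf : Summable f) (hf0 : ∀ k, 0 ≤ f k) :
    Summable fun k : ℕ => f (k / r) := by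
  refine summable_of_sum_range_le (c := r * ∑' k, f k) (fun k => hf0 _) fun n => ?_
  have h1 : ∀ N : ℕ, ∑ k ∈ range (r * N), f (k / r) = r * ∑ k ∈ range N, f k := by
    intro N
    induction N with
    | zero => simp
    | succ N ih =>
      rw [Nat.mul_succ, sum_range_add, ih, sum_range_succ, mul_add]
      congr 1
      have : ∀ k ∈ range r, f ((r * N + k) / r) = f N := by
        intro k hk
        congr 1
        rw [Nat.mul_add_div (by omega), Nat.div_eq_of_lt (mem_range.1 hk), add_zero]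
      rw [sum_congr rfl this, sum_const, card_range, nsmul_eq_mul]
  calc ∑ k ∈ range n, f (k / r) ≤ ∑ k ∈ range (r * n), f (k / r) := by
        refine sum_le_sum_of_subset_of_nonneg ?_ fun k _ _ => hf0 _
        intro k hk
        rw [mem_range] at hk ⊢
        nlinarith
    _ = r * ∑ k ∈ range n, f k := h1 n
    _ ≤ r * ∑' k, f k := by
        gcongr
        exact hf.sum_le_tsum _ fun i _ => hf0 i

/-- **One character, averages.** The thresholds `t L` may tend to `sin (π / p) ‖c‖`. -/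
theorem averages {p Q : ℕ} (hp : p.Prime) (hQ1 : 2 ≤ Q) (hQ : Q ≡ 1 [MOD p]) (μ : Measure T)
    [IsProbabilityMeasure μ] (hna : ∀ x, μ {x} = 0)
    (hip : MeasurePreserving (fun x : T => p • x) μ μ) (m : ℤ) (hm : ¬ (p : ℤ) ∣ m)
    {c : ℂ} (hc : c ≠ 0) :
    ∃ ε : ℕ → ℝ, (∀ L, 0 < ε L) ∧ Tendsto ε atTop (𝓝 0) ∧
    ¬ Summable fun L : ℕ => μ.real {x | Real.sin (Real.pi / p) * ‖c‖ - ε L < ‖Av Q m L x - c‖} := by
  have hpR : (1 : ℝ) < p := by exact_mod_cast hp.one_lt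
  have hp0 : (0 : ℝ) < p := by linarith
  have hQR : (2 : ℝ) ≤ Q := by exact_mod_cast hQ1
  have hc0 : 0 < ‖c‖ := norm_pos_iff.2 hc
  have hpi := Real.pi_pos
  obtain ⟨r, hr⟩ : ∃ r : ℕ, (Q : ℝ) < (p : ℝ) ^ r := pow_unbounded_of_one_lt _ hpR
  have hr1 : 1 ≤ r := by
    rcases Nat.eq_zero_or_pos r with h | h
    · rw [h, pow_zero] at hr; linarith
    · exact h
  set θ : ℝ := Q / (p : ℝ) ^ r with hθ
  have hθ0 : 0 < θ := by positivity
  have hθ1 : θ < 1 := by rw [hθ, div_lt_one (by positivity)]; exact hr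
  set C : ℝ := 2 * Real.pi * |(m : ℝ)| + 1 with hC
  have hC0 : 0 < C := by positivity
  refine ⟨fun L => C * θ ^ L, fun L => by positivity, ?_, fun hsum => ?_⟩
  · have := (tendsto_pow_atTop_nhds_zero_of_lt_one hθ0.le hθ1).const_mul C
    simpa using this
  have h1 := summable_div r hr1 hsum (fun k => measureReal_nonneg)
  refine main hp (by omega) hQ μ hna hip m hm (fun k => k / r)
    (fun k i => c⁻¹ * ((k / r : ℕ) : ℂ)⁻¹)
    (fun k => Real.sin (Real.pi / p) - C * θ ^ (k / r) / ‖c‖) ?_ ?_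
  · filter_upwards [eventually_ge_atTop r] with k hk
    have hL : 1 ≤ k / r := (Nat.one_le_div_iff (by omega)).2 hk
    set L := k / r with hLdef
    have hLR : (0 : ℝ) < L := by exact_mod_cast hL
    have e1 : ∑ i ∈ range L, ‖c⁻¹ * ((L : ℕ) : ℂ)⁻¹‖ = ‖c‖⁻¹ := by
      rw [sum_const, card_range, nsmul_eq_mul, norm_mul, norm_inv, norm_inv,
        Complex.norm_natCast]
      field_simp
    rw [e1]
    have h2 : (p : ℝ) ^ (r * L) ≤ (p : ℝ) ^ k :=
      pow_le_pow_right₀ hpR.le (Nat.mul_div_le k r)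
    have h3 : (Q : ℝ) ^ L * (1 / (p : ℝ) ^ k) ≤ θ ^ L := by
      rw [hθ, div_pow, ← pow_mul, mul_one_div]
      gcongr
    calc 2 * Real.pi * |(m : ℝ)| * ((Q : ℝ) ^ L * ‖c‖⁻¹) * (1 / (p : ℝ) ^ k) =
        2 * Real.pi * |(m : ℝ)| * ‖c‖⁻¹ * ((Q : ℝ) ^ L * (1 / (p : ℝ) ^ k)) := by ring
      _ ≤ 2 * Real.pi * |(m : ℝ)| * ‖c‖⁻¹ * θ ^ L := by gcongr
      _ < 2 * (C * θ ^ L / ‖c‖) := by
          have e : 2 * (C * θ ^ L / ‖c‖) = 2 * C * ‖c‖⁻¹ * θ ^ L := by
            field_simp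
          rw [e]
          have h4 : 2 * Real.pi * |(m : ℝ)| < 2 * C := by
            rw [hC]
            have : 0 ≤ 2 * Real.pi * |(m : ℝ)| := by positivity
            linarith
          have h5 : 0 < ‖c‖⁻¹ * θ ^ L := by positivity
          nlinarith
      _ = 2 * (Real.sin (Real.pi / p) - (Real.sin (Real.pi / p) - C * θ ^ L / ‖c‖)) := by ring
  · refine Summable.of_norm_bounded_eventually_nat h1 ?_
    filter_upwards with k
    rw [Real.norm_of_nonneg measureReal_nonneg]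
    refine measureReal_mono ?_ (measure_ne_top _ _)
    intro x hx
    have hx' : Real.sin (Real.pi / p) - C * θ ^ (k / r) / ‖c‖ <
      ‖W Q m (k / r) (fun i => c⁻¹ * ((k / r : ℕ) : ℂ)⁻¹) x - 1‖ := hx
    have e : W Q m (k / r) (fun i => c⁻¹ * ((k / r : ℕ) : ℂ)⁻¹) x - 1 =
        c⁻¹ * (Av Q m (k / r) x - c) := by
      unfold W Av
      rw [mul_sub, inv_mul_cancel₀ hc, ← mul_assoc, mul_sum]
    rw [e, norm_mul, norm_inv] at hx'
    show Real.sin (Real.pi / p) * ‖c‖ - C * θ ^ (k / r) < ‖Av Q m (k / r) x - c‖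
    rw [inv_mul_eq_div, lt_div_iff₀ hc0, sub_mul, div_mul_cancel₀ _ hc0.ne'] at hx'
    exact hx'

end Pool.Agent.Y315.SC
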